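import Pool.Agent.T2H24.GR.Prod
import Pool.Agent.T2H24.SU.Limits

set_option autoImplicit false
set_option linter.unusedSectionVars false
set_option linter.unusedVariables false

/-!
# Positive combinations of characters
-/

namespace Pool.Agent.T2H24.FC

open Filter Topology ComplexConjugate MeasureTheory
  Pool.Agent.TH553.RS Pool.Agent.TH553.ST Pool.Agent.H341R2 Pool.Agent.T2H24.SU
  Pool.Agent.T2H24.GR
open scoped Matrix Kronecker

section

variable {G : Type} [Group G] [TopologicalSpace G]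

/-- characters of representations -/
def Ch (f : G → ℂ) : Prop := ∃ (n : ℕ) (π : G →* Matrix.unitaryGroup (Fin n) ℂ), Continuous π ∧
  ∀ g, f g = chi π g

theorem ch_of {ι : Type} [Fintype ι] [DecidableEq ι] {π : G →* Matrix.unitaryGroup ι ℂ}
    (hc : Continuous π) {f : G → ℂ} (h : ∀ g, f g = (π g : Matrix ι ι ℂ).trace) : Ch f := by
  refine ⟨Fintype.card ι, ri (Fintype.equivFin ι) π, cont_ri _ hc, fun g => ?_⟩
  rw [h, chi_ri]

theorem Ch.add {f f' : G → ℂ} (h : Ch f) (h' : Ch f') : Ch fun g => f g + f' g := by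
  obtain ⟨n, π, hc, h1⟩ := h
  obtain ⟨n', π', hc', h1'⟩ := h'
  refine ch_of (π := ds π π') ?_ fun g => ?_
  · refine Continuous.subtype_mk ?_ _
    exact (continuous_subtype_val.comp hc).matrix_fromBlocks continuous_const continuous_const
      (continuous_subtype_val.comp hc')
  · change _ = (Matrix.fromBlocks (π g : Matrix (Fin n) (Fin n) ℂ) 0 0
      (π' g : Matrix (Fin n') (Fin n') ℂ)).trace
    unfold Matrix.trace
    rw [Fintype.sum_sum_type]
    exact congrArg₂ (· + ·) (h1 g) (h1' g)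

theorem Ch.mul {f f' : G → ℂ} (h : Ch f) (h' : Ch f') : Ch fun g => f g * f' g := by
  obtain ⟨n, π, hc, h1⟩ := h
  obtain ⟨n', π', hc', h1'⟩ := h'
  refine ch_of (π := tp π π') ?_ fun g => ?_
  · refine Continuous.subtype_mk ?_ _
    refine continuous_matrix fun i j => ?_
    exact ((continuous_subtype_val.comp hc).matrix_elem i.1 j.1).mul
      ((continuous_subtype_val.comp hc').matrix_elem i.2 j.2)
  · change _ = ((π g : Matrix (Fin n) (Fin n) ℂ) ⊗ₖ (π' g : Matrix (Fin n') (Fin n') ℂ)).trace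
    rw [Matrix.trace_kronecker]
    exact congrArg₂ (· * ·) (h1 g) (h1' g)

theorem Ch.one : Ch fun _ : G => 1 := by
  refine ⟨1, 1, continuous_const, fun g => ?_⟩
  change _ = (1 : Matrix (Fin 1) (Fin 1) ℂ).trace
  simp

theorem Ch.conj [IsTopologicalGroup G] {f : G → ℂ} (h : Ch f) : Ch fun g => conj (f g) := by
  obtain ⟨n, π, hc, h1⟩ := h
  refine ⟨n, cj π, cont_cj hc, fun g => ?_⟩
  simp only
  rw [chi_cj, h1]

theorem Ch.pow {f : G → ℂ} (h : Ch f) (k : ℕ) : Ch fun g => f g ^ k := by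
  induction k with
  | zero =>
    simp only [pow_zero]
    exact Ch.one
  | succ k ih =>
    simp only [pow_succ]
    exact ih.mul h

theorem Ch.cont {f : G → ℂ} (h : Ch f) : Continuous f := by
  obtain ⟨n, π, hc, h1⟩ := h
  have : f = chi π := funext h1
  rw [this]
  exact cont_chi hc

theorem Ch.cls {f : G → ℂ} (h : Ch f) (g k : G) : f (k * g * k⁻¹) = f g := by
  obtain ⟨n, π, hc, h1⟩ := h
  rw [h1, h1, chi_cls]

theorem ch_c (r : Irr G) : Ch r.c := ⟨r.n, r.ρ, r.cont, fun _ => rfl⟩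

end

section

variable {G : Type} [Group G] [TopologicalSpace G] [IsTopologicalGroup G] [CompactSpace G]
  [MeasurableSpace G] [BorelSpace G] (μ : Measure G) [IsProbabilityMeasure μ] [μ.IsHaarMeasure]

include μ in
theorem Ch.coef {f : G → ℂ} (h : Ch f) : Coef f := by
  obtain ⟨n, π, hc, h1⟩ := h
  have : f = chi π := funext h1
  rw [this]
  exact coef_chi hc

/-- the integral of a character is nonnegative -/
theorem Ch.int {f : G → ℂ} (h : Ch f) : ∃ a : ℝ, 0 ≤ a ∧ ∫ g, f g ∂μ = a := by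
  obtain ⟨n, π, hc, h1⟩ := h
  have hF : Continuous fun g => (π g : Matrix (Fin n) (Fin n) ℂ) := cont_mat hc
  set E : Matrix (Fin n) (Fin n) ℂ := mi μ fun g => (π g : Matrix (Fin n) (Fin n) ℂ) with hE
  have h2 : ∀ h, (π h : Matrix (Fin n) (Fin n) ℂ) * E = E := by
    intro h
    rw [hE, ← mi_mul hF]
    have h3 : (fun g => (π h : Matrix (Fin n) (Fin n) ℂ) * (π g : Matrix (Fin n) (Fin n) ℂ)) =
        fun g => (π (h * g) : Matrix (Fin n) (Fin n) ℂ) := by
      funext g
      rw [pi_mul]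
    rw [h3]
    exact mi_left (fun g => (π g : Matrix (Fin n) (Fin n) ℂ)) h
  have h3 : ∀ g, Eᴴ * (π g : Matrix (Fin n) (Fin n) ℂ) = Eᴴ := by
    intro g
    have h4 := congrArg Matrix.conjTranspose (h2 g⁻¹)
    rw [Matrix.conjTranspose_mul] at h4
    have h5 : ((π g⁻¹ : Matrix.unitaryGroup (Fin n) ℂ) : Matrix (Fin n) (Fin n) ℂ)ᴴ =
        (π g : Matrix (Fin n) (Fin n) ℂ) := by
      have h6 := pi_star (π := π) g⁻¹
      have h7 : ((π g⁻¹ : Matrix.unitaryGroup (Fin n) ℂ) : Matrix (Fin n) (Fin n) ℂ) *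
          (π g : Matrix (Fin n) (Fin n) ℂ) = 1 := by
        rw [← pi_mul, inv_mul_cancel, map_one]
        rfl
      calc _ = ((π g⁻¹ : Matrix.unitaryGroup (Fin n) ℂ) : Matrix (Fin n) (Fin n) ℂ)ᴴ *
            (((π g⁻¹ : Matrix.unitaryGroup (Fin n) ℂ) : Matrix (Fin n) (Fin n) ℂ) *
            (π g : Matrix (Fin n) (Fin n) ℂ)) := by rw [h7, mul_one]
        _ = _ := by rw [← mul_assoc, h6, one_mul]
    rw [h5] at h4
    exact h4
  have h4 : Eᴴ * E = Eᴴ := by
    have h5 := mi_mul (μ := μ) hF Eᴴ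
    simp only [h3] at h5
    rw [← hE] at h5
    rw [← h5]
    ext i j
    rw [mi_apply]
    simp
  have h5 : E.trace = ∫ g, f g ∂μ := by
    rw [hE, mi_trace hF]
    exact integral_congr_ae (Eventually.of_forall fun g => (h1 g).symm)
  have h6 : Eᴴ.trace = ((∑ i, ∑ j, ‖E i j‖ ^ 2 : ℝ) : ℂ) := by
    rw [← h4]
    unfold Matrix.trace
    simp only [Matrix.diag_apply, Matrix.mul_apply, Matrix.conjTranspose_apply]
    push_cast
    rw [Finset.sum_comm]
    refine Finset.sum_congr rfl fun i _ => Finset.sum_congr rfl fun j _ => ?_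
    rw [Complex.star_def, Complex.conj_mul']
  refine ⟨∑ i, ∑ j, ‖E i j‖ ^ 2, Finset.sum_nonneg fun i _ => Finset.sum_nonneg fun j _ =>
    by positivity, ?_⟩
  rw [← h5]
  have h7 : E.trace = conj (Eᴴ.trace) := by
    rw [Matrix.trace_conjTranspose, Complex.star_def, Complex.conj_conj]
  rw [h7, h6, Complex.conj_ofReal]

theorem int_orth {r r' : Irr G} (h : r.c ≠ r'.c) : ∫ g, r.c g * conj (r'.c g) ∂μ = 0 := by
  exact int_mul_conj r.cont r.schur r'.cont r'.schur (show chi r.ρ ≠ chi r'.ρ from h)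

theorem int_self {r : Irr G} (hn : r.n ≠ 0) : ∫ g, r.c g * conj (r.c g) ∂μ = 1 := by
  have h1 := int_sq (μ := μ) r.cont r.schur hn
  have h2 : ∫ g, r.c g * conj (r.c g) ∂μ = ((∫ g, ‖r.c g‖ ^ 2 ∂μ : ℝ) : ℂ) := by
    rw [← integral_complex_ofReal]
    refine integral_congr_ae (Eventually.of_forall fun g => ?_)
    simp only
    rw [Complex.mul_conj, Complex.normSq_eq_norm_sq]
  rw [h2]
  exact_mod_cast h1

theorem c_zero {r : Irr G} (hn : r.n = 0) : r.c = 0 := by
  funext g
  have h1 : ‖r.c g‖ ≤ (r.n : ℝ) := norm_chi r.ρ g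
  have h2 : (r.n : ℝ) = 0 := by exact_mod_cast hn
  rw [h2, norm_le_zero_iff] at h1
  exact h1

/-- the decomposition of a character -/
theorem Ch.dec {f : G → ℂ} (h : Ch f) : ∃ (S : Finset (G → ℂ)) (B : (G → ℂ) → ℝ),
    (∀ φ ∈ S, ∃ r : Irr G, r.n ≠ 0 ∧ φ = r.c) ∧ (∀ φ ∈ S, 0 ≤ B φ) ∧
    (∀ g, f g = ∑ φ ∈ S, (B φ : ℂ) * φ g) ∧
    ∀ r : Irr G, r.n ≠ 0 → (r.c ∈ S → ∫ g, f g * conj (r.c g) ∂μ = (B r.c : ℂ)) ∧
      (r.c ∉ S → ∫ g, f g * conj (r.c g) ∂μ = 0) := by
  classical
  obtain ⟨J, _, r, a, h1⟩ := dec_irr (dec_of_coef μ (h.coef μ) fun g k => h.cls g k)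
  set S : Finset (G → ℂ) := (Finset.univ.filter fun j => (r j).n ≠ 0).image fun j => (r j).c with hS
  have hB : ∀ φ ∈ S, ∃ b : ℝ, 0 ≤ b ∧ ∫ g, f g * conj (φ g) ∂μ = b := by
    intro φ hφ
    obtain ⟨j, hj, rfl⟩ := Finset.mem_image.1 hφ
    exact (h.mul (ch_c (r j)).conj).int μ
  set B : (G → ℂ) → ℝ := fun φ => (∫ g, f g * conj (φ g) ∂μ).re with hBd
  have hBe : ∀ φ ∈ S, ∫ g, f g * conj (φ g) ∂μ = (B φ : ℂ) ∧ 0 ≤ B φ := by
    intro φ hφ
    obtain ⟨b, hb0, hb⟩ := hB φ hφ
    rw [hBd]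
    simp only
    rw [hb, Complex.ofReal_re]
    exact ⟨rfl, hb0⟩
  have hsum : ∀ r' : Irr G, r'.n ≠ 0 → ∫ g, f g * conj (r'.c g) ∂μ =
      ∑ j ∈ Finset.univ.filter (fun j => (r j).c = r'.c), a j := by
    intro r' hr'
    have h2 : ∫ g, f g * conj (r'.c g) ∂μ = ∑ j', a j' * ∫ g, (r j').c g * conj (r'.c g) ∂μ := by
      have hi : ∀ j', Integrable (fun g => a j' * ((r j').c g * conj (r'.c g))) μ := fun j' =>
        (intg ((r j').cc.mul (Complex.continuous_conj.comp r'.cc))).const_mul _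
      simp only [h1, Finset.sum_mul, mul_assoc]
      rw [integral_finsetSum _ fun j' _ => hi j']
      exact Finset.sum_congr rfl fun j' _ => integral_const_mul _ _
    rw [h2, Finset.sum_filter]
    refine Finset.sum_congr rfl fun j _ => ?_
    split_ifs with h3
    · rw [h3, int_self μ hr', mul_one]
    · rw [int_orth μ h3, mul_zero]
  refine ⟨S, B, fun φ hφ => ?_, fun φ hφ => (hBe φ hφ).2, fun g => ?_, fun r' hr' => ?_⟩
  · obtain ⟨j, hj, rfl⟩ := Finset.mem_image.1 hφ
    exact ⟨r j, (Finset.mem_filter.1 hj).2, rfl⟩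
  · have h2 : ∀ φ ∈ S, (B φ : ℂ) = ∑ j ∈ Finset.univ.filter (fun j => (r j).c = φ), a j := by
      intro φ hφ
      rw [← (hBe φ hφ).1]
      obtain ⟨j, hj, rfl⟩ := Finset.mem_image.1 hφ
      exact hsum (r j) (Finset.mem_filter.1 hj).2
    have h3 : ∑ φ ∈ S, (B φ : ℂ) * φ g =
        ∑ φ ∈ S, ∑ j ∈ (Finset.univ.filter fun j => (r j).n ≠ 0).filter (fun j => (r j).c = φ),
          a j * (r j).c g := by
      refine Finset.sum_congr rfl fun φ hφ => ?_
      rw [h2 φ hφ, Finset.sum_mul]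
      have h4 : (Finset.univ.filter fun j => (r j).n ≠ 0).filter (fun j => (r j).c = φ) =
          Finset.univ.filter (fun j => (r j).c = φ) := by
        ext j
        simp only [Finset.mem_filter, Finset.mem_univ, true_and]
        refine ⟨fun h => h.2, fun h => ⟨fun h0 => ?_, h⟩⟩
        obtain ⟨j', hj', hφ'⟩ := Finset.mem_image.1 hφ
        have h5 := (Finset.mem_filter.1 hj').2
        have h6 := int_self μ h5
        have h7 : (r j').c = 0 := by
          rw [show (r j').c = (r j).c from hφ'.trans h.symm, c_zero h0]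
        rw [h7] at h6
        simp at h6
      rw [h4]
      refine Finset.sum_congr rfl fun j hj => ?_
      rw [← (Finset.mem_filter.1 hj).2]
    have h4 := Finset.sum_fiberwise_of_maps_to (s := Finset.univ.filter fun j => (r j).n ≠ 0)
      (t := S) (g := fun j => (r j).c) (fun j hj => Finset.mem_image_of_mem _ hj)
      (fun j => a j * (r j).c g)
    rw [h3, h1, h4]
    symm
    refine Finset.sum_subset (Finset.subset_univ _) fun j _ hj => ?_
    have h5 : (r j).n = 0 := by
      by_contra h6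
      exact hj (Finset.mem_filter.2 ⟨Finset.mem_univ _, h6⟩)
    rw [c_zero h5]
    simp
  · constructor
    · intro h2
      exact (hBe _ h2).1
    · intro h2
      rw [hsum r' hr']
      refine Finset.sum_eq_zero fun j hj => ?_
      exfalso
      apply h2
      have h3 := (Finset.mem_filter.1 hj).2
      refine Finset.mem_image.2 ⟨j, Finset.mem_filter.2 ⟨Finset.mem_univ _, fun h0 => ?_⟩, h3⟩
      have h6 := int_self μ hr'
      rw [← h3, c_zero h0] at h6
      simp at h6

/-- the kernel -/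
noncomputable def ku (π : Irr G) (g : G) : ℝ := 1 + 2 * (π.c g).re

theorem ku_cont (π : Irr G) : Continuous (ku π) :=
  continuous_const.add ((Complex.continuous_re.comp π.cc).const_mul 2)

theorem ku_ch (π : Irr G) (k : ℕ) : Ch fun g => ((ku π g ^ k : ℝ) : ℂ) := by
  have h1 : Ch fun g => (1 + π.c g + conj (π.c g)) ^ k :=
    ((Ch.one.add (ch_c π)).add (ch_c π).conj).pow k
  have h2 : (fun g => ((ku π g ^ k : ℝ) : ℂ)) = fun g => (1 + π.c g + conj (π.c g)) ^ k := by
    funext g
    unfold ku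
    rw [add_assoc, Complex.add_conj]
    push_cast
    ring
  rw [h2]
  exact h1

theorem norm_c_le (π : Irr G) (g : G) : ‖π.c g‖ ≤ π.n := norm_chi π.ρ g

/-- **Laplace's principle.** -/
theorem laplace (π : Irr G) (hn : 2 ≤ π.n) : ∃ k : ℕ,
    ∫ g, ku π g ^ (2 * k) ∂μ < ∫ g, ku π g ^ (2 * k) * (π.c g).re ∂μ := by
  set d : ℝ := (π.n : ℝ) with hd
  have hd2 : (2 : ℝ) ≤ d := by rw [hd]; exact_mod_cast hn
  set ρ : G → ℝ := fun g => (π.c g).re with hρ
  have hρc : Continuous ρ := Complex.continuous_re.comp π.cc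
  have hρb : ∀ g, |ρ g| ≤ d := fun g => (Complex.abs_re_le_norm _).trans (norm_c_le π g)
  set B : ℝ := max 4 (2 * d - 1) with hB
  set A : ℝ := 2 * d + 1 / 2 with hA
  have hBA : B < A := by
    rw [hB, hA, max_lt_iff]
    constructor <;> linarith
  have hB0 : 0 < B := lt_of_lt_of_le (by norm_num) (le_max_left _ _)
  -- the open set
  set O : Set G := {g | d - 1 / 4 < ρ g} with hO
  have hOo : IsOpen O := isOpen_lt continuous_const hρc
  have hO1 : (1 : G) ∈ O := by
    change d - 1 / 4 < (π.c 1).re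
    have : π.c 1 = (π.n : ℂ) := chi_one π.ρ
    rw [this, Complex.natCast_re]
    linarith
  have hμO : 0 < (μ O).toReal :=
    ENNReal.toReal_pos (hOo.measure_pos μ ⟨1, hO1⟩).ne' (measure_ne_top _ _)
  obtain ⟨k, hk⟩ : ∃ k : ℕ, (d + 1) * B ^ (2 * k) < 1 / 2 * (μ O).toReal * A ^ (2 * k) := by
    have h1 : Tendsto (fun k : ℕ => ((B / A) ^ 2) ^ k) atTop (𝓝 0) := by
      refine tendsto_pow_atTop_nhds_zero_of_lt_one (by positivity) ?_
      have h2 : B / A < 1 := (div_lt_one (hB0.trans hBA)).2 hBA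
      have h3 : 0 ≤ B / A := (div_pos hB0 (hB0.trans hBA)).le
      exact pow_lt_one₀ h3 h2 two_ne_zero
    have h2 := h1.eventually_lt_const (u := 1 / 2 * (μ O).toReal / (d + 1))
      (by positivity)
    obtain ⟨k, hk⟩ := h2.exists
    refine ⟨k, ?_⟩
    have hA0 : 0 < A := hB0.trans hBA
    rw [← pow_mul, div_pow, div_lt_div_iff₀ (by positivity) (by positivity)] at hk
    linarith
  refine ⟨k, ?_⟩
  have hkc : Continuous fun g => ku π g ^ (2 * k) := (ku_cont π).pow _
  have hi2 : Integrable (fun g => ku π g ^ (2 * k) * ρ g) μ := intg (hkc.mul hρc)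
  have hi3 : Integrable (fun g => ku π g ^ (2 * k)) μ := intg hkc
  have hi4 : Integrable (fun g => ku π g ^ (2 * k) * ρ g - ku π g ^ (2 * k)) μ := hi2.sub hi3
  have hs : ∫ g, (ku π g ^ (2 * k) * ρ g - ku π g ^ (2 * k)) ∂μ =
      (∫ g, ku π g ^ (2 * k) * (π.c g).re ∂μ) - ∫ g, ku π g ^ (2 * k) ∂μ := integral_sub hi2 hi3
  rw [← sub_pos, ← hs]
  -- a lower bound for the integrand
  have hlow : ∀ g, O.indicator (fun _ => 1 / 2 * A ^ (2 * k)) g - (d + 1) * B ^ (2 * k) ≤
      ku π g ^ (2 * k) * ρ g - ku π g ^ (2 * k) := by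
    intro g
    have he : ku π g ^ (2 * k) * ρ g - ku π g ^ (2 * k) = ku π g ^ (2 * k) * (ρ g - 1) := by ring
    rw [he]
    have hk0 : 0 ≤ ku π g ^ (2 * k) := by
      rw [pow_mul]
      positivity
    have hBk : 0 < (d + 1) * B ^ (2 * k) := by positivity
    have hkρ : ku π g = 1 + 2 * ρ g := rfl
    by_cases h1 : g ∈ O
    · rw [Set.indicator_of_mem h1]
      have h2 : d - 1 / 4 < ρ g := h1
      have h3 : A ≤ ku π g := by
        rw [hkρ, hA]
        linarith
      have h4 : A ^ (2 * k) ≤ ku π g ^ (2 * k) := pow_le_pow_left₀ (hB0.trans hBA).le h3 _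
      have h5 : 1 / 2 ≤ ρ g - 1 := by linarith
      have h6 : A ^ (2 * k) * (1 / 2) ≤ ku π g ^ (2 * k) * (ρ g - 1) :=
        mul_le_mul h4 h5 (by norm_num) hk0
      linarith
    · rw [Set.indicator_of_notMem h1]
      by_cases h2 : 3 / 2 ≤ ρ g
      · have : 0 ≤ ku π g ^ (2 * k) * (ρ g - 1) := mul_nonneg hk0 (by linarith)
        linarith
      · push Not at h2
        have h3 : |ku π g| ≤ B := by
          rw [abs_le, hkρ, hB]
          have h4 := (abs_le.1 (hρb g)).1
          constructor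
          · have := le_max_right (4 : ℝ) (2 * d - 1)
            linarith
          · have := le_max_left (4 : ℝ) (2 * d - 1)
            linarith
        have h4 : ku π g ^ (2 * k) ≤ B ^ (2 * k) := by
          rw [← (even_two_mul k).pow_abs]
          exact pow_le_pow_left₀ (abs_nonneg _) h3 _
        have h5 : -(d + 1) ≤ ρ g - 1 := by
          have := (abs_le.1 (hρb g)).1
          linarith
        have h6 : ku π g ^ (2 * k) * (-(d + 1)) ≤ ku π g ^ (2 * k) * (ρ g - 1) :=
          mul_le_mul_of_nonneg_left h5 hk0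
        have h7 : ku π g ^ (2 * k) * (d + 1) ≤ B ^ (2 * k) * (d + 1) :=
          mul_le_mul_of_nonneg_right h4 (by linarith)
        linarith
  have hi1 : Integrable (fun g => O.indicator (fun _ => 1 / 2 * A ^ (2 * k)) g -
      (d + 1) * B ^ (2 * k)) μ :=
    ((integrable_const _).indicator hOo.measurableSet).sub (integrable_const _)
  have h1 := integral_mono hi1 hi4 hlow
  refine lt_of_lt_of_le ?_ h1
  rw [integral_sub ((integrable_const _).indicator hOo.measurableSet) (integrable_const _),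
    integral_indicator_const _ hOo.measurableSet]
  simp only [integral_const, smul_eq_mul, measureReal_def, measure_univ, ENNReal.toReal_one, one_mul]
  linarith

include μ in
/-- **A finite test.**  For an irreducible `π` of dimension at least two there are finitely many nontrivial
irreducible representations such that the mean value of the character of `π` is larger than `-1` as
soon as the mean values of their characters are not positive. -/
theorem kernel (π : Irr G) (hn : 2 ≤ π.n) : ∃ (J : Type) (_ : Fintype J) (ρ : J → Irr G),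
    (∀ j, ∃ g, (ρ j).ρ g ≠ 1) ∧ (∀ j, (ρ j).n ≠ 0) ∧
    ∀ {P : Type} {N : P → ℕ} (hN : Sys N) {U : Ultrafilter ℝ} (hU : (U : Filter ℝ) ≤ 𝓝[>] 0)
      (x : P → G), (∀ j, (M N U fun p => ((ρ j).c (x p)).re) ≤ 0) →
      -1 < M N U fun p => (π.c (x p)).re := by
  classical
  obtain ⟨k, hk⟩ := laplace μ π hn
  obtain ⟨S, B, hS, hB0, hf, hB⟩ := (ku_ch π (2 * k)).dec μ
  have : Nonempty (Irr G) := ⟨π⟩
  choose! r hrn hr using hS
  set S' : Finset (G → ℂ) := S.filter fun φ => ∃ g, (r φ).ρ g ≠ 1 with hS'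
  have hn0 : π.n ≠ 0 := by omega
  -- the coefficients
  have hint : ∀ h : G → ℂ, Continuous h → ∫ g, ((ku π g ^ (2 * k) : ℝ) : ℂ) * h g ∂μ =
      ⟨∫ g, ku π g ^ (2 * k) * (h g).re ∂μ, ∫ g, ku π g ^ (2 * k) * (h g).im ∂μ⟩ := by
    intro h hh
    have hi : Integrable (fun g => ((ku π g ^ (2 * k) : ℝ) : ℂ) * h g) μ :=
      intg ((Complex.continuous_ofReal.comp ((ku_cont π).pow _)).mul hh)
    apply Complex.ext
    · have h1 := integral_re hi
      rw [← RCLike.re_eq_complex_re, ← h1]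
      refine integral_congr_ae (Eventually.of_forall fun g => ?_)
      simp only [RCLike.re_eq_complex_re, Complex.re_ofReal_mul]
    · have h1 := integral_im hi
      rw [← RCLike.im_eq_complex_im, ← h1]
      refine integral_congr_ae (Eventually.of_forall fun g => ?_)
      simp only [RCLike.im_eq_complex_im, Complex.im_ofReal_mul]
  have hI0 : 0 ≤ ∫ g, ku π g ^ (2 * k) ∂μ := integral_nonneg fun g => by
    change 0 ≤ ku π g ^ (2 * k)
    rw [pow_mul]
    positivity
  have hπ : π.c ∈ S ∧ B π.c = ∫ g, ku π g ^ (2 * k) * (π.c g).re ∂μ := by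
    have h1 := hB π hn0
    have h2 := hint (fun g => conj (π.c g)) (Complex.continuous_conj.comp π.cc)
    simp only [Complex.conj_re] at h2
    by_cases h3 : π.c ∈ S
    · refine ⟨h3, ?_⟩
      have h4 := h1.1 h3
      rw [h2] at h4
      exact (congrArg Complex.re h4).symm
    · have h4 := h1.2 h3
      rw [h2] at h4
      have h5 := congrArg Complex.re h4
      simp only [Complex.zero_re] at h5
      rw [h5] at hk
      linarith
  refine ⟨S', inferInstance, fun φ => r φ.1, fun φ => (Finset.mem_filter.1 φ.2).2,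
    fun φ => hrn _ (Finset.mem_filter.1 φ.2).1, ?_⟩
  intro P N hN U hU x hM
  have hbd : ∀ ρ : Irr G, Bd fun p => (ρ.c (x p)).re := fun ρ =>
    (show Bc fun p => ρ.c (x p) from ⟨ρ.n, fun p => norm_c_le ρ _⟩).re
  -- the mean value of the kernel
  have hmean : (M N U fun p => ku π (x p) ^ (2 * k)) =
      ∑ φ ∈ S, B φ * M N U fun p => (φ (x p)).re := by
    have h1 : (fun p => ku π (x p) ^ (2 * k)) = fun p => ∑ φ ∈ S, B φ * (φ (x p)).re := by
      funext p
      have h2 := congrArg Complex.re (hf (x p))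
      rw [Complex.ofReal_re, Complex.re_sum] at h2
      simp only [Complex.re_ofReal_mul] at h2
      exact h2
    rw [h1]
    have h3 : ∀ φ ∈ S, Bd fun p => B φ * (φ (x p)).re := fun φ hφ => by
      rw [hr φ hφ]
      exact (hbd _).const_mul _
    rw [M_sum hN hU S h3]
    refine Finset.sum_congr rfl fun φ hφ => ?_
    refine M_const_mul hN hU ?_ _
    rw [hr φ hφ]
    exact hbd _
  have hpos : 0 ≤ M N U fun p => ku π (x p) ^ (2 * k) := by
    refine M_nonneg hN hU ?_ fun p => ?_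
    · have h1 : Bd fun p => 1 + 2 * (π.c (x p)).re := (Bd.const 1).add ((hbd π).const_mul 2)
      obtain ⟨C, hC⟩ := h1
      exact ⟨C ^ (2 * k), fun p => by
        rw [abs_pow]
        exact pow_le_pow_left₀ (abs_nonneg _) (hC p) _⟩
    · rw [pow_mul]
      positivity
  -- the terms
  have hπnt : ∃ g, π.ρ g ≠ 1 := by
    by_contra hcon
    push Not at hcon
    obtain ⟨e, he⟩ := π.schur (Matrix.single ⟨0, by omega⟩ ⟨0, by omega⟩ 1) fun g => by
      rw [hcon g]
      simp
    have h3 := congrFun (congrFun he ⟨0, by omega⟩) ⟨0, by omega⟩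
    have h4 := congrFun (congrFun he ⟨1, by omega⟩) ⟨1, by omega⟩
    simp at h3 h4
    rw [← h3] at h4
    norm_num at h4
  have hπ0 : ∫ g, π.c g ∂μ = 0 := int_chi π.cont π.schur hπnt
  have hterm : ∀ φ ∈ S.erase π.c, B φ * (M N U fun p => (φ (x p)).re) ≤
      if φ = (fun _ => 1) then ∫ g, ku π g ^ (2 * k) ∂μ else 0 := by
    intro φ hφ'
    have hφ := Finset.mem_of_mem_erase hφ'
    by_cases hnt : ∃ g, (r φ).ρ g ≠ 1
    · have h1 := hM ⟨φ, Finset.mem_filter.2 ⟨hφ, hnt⟩⟩
      simp only [← hr φ hφ] at h1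
      have h2 : B φ * (M N U fun p => (φ (x p)).re) ≤ 0 :=
        mul_nonpos_of_nonneg_of_nonpos (hB0 φ hφ) h1
      split_ifs
      · exact h2.trans hI0
      · exact h2
    · push Not at hnt
      have h1 : φ = fun _ => 1 := by
        have h2 : ∀ g, (r φ).c g = ((r φ).n : ℂ) := fun g => chi_triv hnt g
        have h3 := int_self μ (hrn φ hφ)
        simp only [h2] at h3
        have h4 : ((r φ).n : ℂ) * ((r φ).n : ℂ) = 1 := by
          simpa using h3
        have h5 : (r φ).n = 1 := by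
          have h6 : (r φ).n * (r φ).n = 1 := by exact_mod_cast h4
          exact Nat.eq_one_of_mul_eq_one_left h6
        rw [hr φ hφ]
        funext g
        rw [h2, h5]
        simp
      rw [if_pos h1]
      have h3 := (hB (r φ) (hrn φ hφ)).1 (by rw [← hr φ hφ]; exact hφ)
      rw [← hr φ hφ] at h3
      have h4 : B φ = ∫ g, ku π g ^ (2 * k) ∂μ := by
        rw [h1] at h3 ⊢
        simp only [map_one, mul_one] at h3
        rw [integral_complex_ofReal] at h3
        exact_mod_cast h3.symm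
      rw [h4, h1]
      simp only [Complex.one_re]
      rw [M_one hN hU, mul_one]
  have hsum : ∑ φ ∈ S.erase π.c, B φ * (M N U fun p => (φ (x p)).re) ≤
      ∫ g, ku π g ^ (2 * k) ∂μ := by
    refine (Finset.sum_le_sum hterm).trans ?_
    rw [Finset.sum_ite_eq' (S.erase π.c) (fun _ => (1 : ℂ))]
    split_ifs
    · exact le_rfl
    · exact hI0
  rw [hmean, ← Finset.add_sum_erase S _ hπ.1, hπ.2] at hpos
  set m := M N U fun p => (π.c (x p)).re with hm
  set b := ∫ g, ku π g ^ (2 * k) * (π.c g).re ∂μ with hb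
  by_contra hcon
  push Not at hcon
  have hb0 : 0 < b := lt_of_le_of_lt hI0 hk
  have h1 : b * m ≤ b * (-1) := mul_le_mul_of_nonneg_left hcon hb0.le
  linarith

end

end Pool.Agent.T2H24.FC
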