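import Pool.Agent.T2H24.FC.Iso

set_option autoImplicit false
set_option linter.unusedSectionVars false
set_option linter.unusedVariables false

/-!
# Automorphisms of the lattice and the torus
-/

namespace Pool.Agent.T2H24.FC

open MeasureTheory Filter Topology ComplexConjugate Pool.Agent.T2H24.SU

variable {r : ℕ}

/-- the normalised measure on the circle -/
noncomputable local instance : MeasureSpace UnitAddCircle := ⟨AddCircle.haarAddCircle⟩

local instance : Measure.IsAddHaarMeasure (volume : Measure UnitAddCircle) :=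
  inferInstanceAs (Measure.IsAddHaarMeasure AddCircle.haarAddCircle)

local instance : IsProbabilityMeasure (volume : Measure UnitAddCircle) :=
  inferInstanceAs (IsProbabilityMeasure AddCircle.haarAddCircle)

theorem toCircle_sum {ι : Type*} (s : Finset ι) (f : ι → UnitAddCircle) :
    (AddCircle.toCircle (∑ i ∈ s, f i) : ℂ) = ∏ i ∈ s, (AddCircle.toCircle (f i) : ℂ) := by
  classical
  induction s using Finset.induction_on with
  | empty => simp
  | insert i s hi ih =>
    rw [Finset.sum_insert hi, Finset.prod_insert hi, AddCircle.toCircle_add, Circle.coe_mul, ih]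

theorem e_toCircle (κ : Fin r → ℤ) (t : T r) :
    e κ t = (AddCircle.toCircle (∑ i, κ i • t i) : ℂ) := by
  rw [toCircle_sum]
  change ∏ i, fourier (κ i) (t i) = _
  refine Finset.prod_congr rfl fun i _ => ?_
  rw [fourier_apply]

/-- the dual of an endomorphism of the lattice -/
noncomputable def act (w : (Fin r → ℤ) →+ (Fin r → ℤ)) (t : T r) : T r :=
  fun i => ∑ j, w (Pi.single i 1) j • t j

theorem e_act (w : (Fin r → ℤ) →+ (Fin r → ℤ)) (κ : Fin r → ℤ) (t : T r) :
    e κ (act w t) = e (w κ) t := by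
  rw [e_toCircle, e_toCircle]
  congr 2
  unfold act
  have h1 : ∀ j, w κ j = ∑ i, κ i * w (Pi.single i 1) j := by
    intro j
    have h2 : κ = ∑ i, κ i • Pi.single i (1 : ℤ) := by
      ext k
      simp [Finset.sum_apply, Pi.single_apply]
    conv_lhs => rw [h2]
    rw [map_sum, Finset.sum_apply]
    refine Finset.sum_congr rfl fun i _ => ?_
    rw [map_zsmul, Pi.smul_apply, smul_eq_mul]
  simp only [h1, Finset.smul_sum, Finset.sum_smul]
  rw [Finset.sum_comm]
  exact Finset.sum_congr rfl fun j _ => Finset.sum_congr rfl fun i _ => by rw [mul_smul]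

theorem act_cont (w : (Fin r → ℤ) →+ (Fin r → ℤ)) : Continuous (act w) := by
  refine continuous_pi fun i => ?_
  exact continuous_finsetSum _ fun j _ => (continuous_apply j).zsmul _

theorem int_e (κ : Fin r → ℤ) : ∫ t, e κ t ∂(hT r) = if κ = 0 then 1 else 0 := by
  have h1 := (orthonormal_iff_ite.1 (UnitAddTorus.orthonormal_mFourier (d := Fin r))) 0 κ
  rw [ContinuousMap.inner_toLp] at h1
  have h2 : ∫ t, e κ t ∂(hT r) = if (0 : Fin r → ℤ) = κ then 1 else 0 := by
    rw [← h1]
    refine integral_congr_ae (Eventually.of_forall fun t => ?_)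
    simp only
    rw [UnitAddTorus.mFourier_zero]
    simp [e]
  rw [h2]
  simp only [eq_comm]

/-- the constant term -/
theorem ct {m : ℕ} (β : Fin m → Fin r → ℤ) (κ : Fin r → ℤ) :
    ∫ t, e κ t * ∏ j, (1 - e (β j) t) ∂(hT r) =
      ∑ S : Finset (Fin m), (-1) ^ S.card * if κ + ∑ j ∈ S, β j = 0 then 1 else 0 := by
  classical
  have h1 : ∀ t, e κ t * ∏ j, (1 - e (β j) t) =
      ∑ S : Finset (Fin m), (-1) ^ S.card * e (κ + ∑ j ∈ S, β j) t := by
    intro t
    have h2 : ∏ j, (1 - e (β j) t) = ∑ S : Finset (Fin m), ∏ j ∈ S, (-(e (β j) t)) := by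
      have h3 := Finset.prod_one_add (f := fun j => -(e (β j) t)) (s := Finset.univ)
      rw [Finset.powerset_univ] at h3
      rw [← h3]
      exact Finset.prod_congr rfl fun j _ => by ring
    rw [h2, Finset.mul_sum]
    refine Finset.sum_congr rfl fun S _ => ?_
    have h4 : ∏ j ∈ S, (-(e (β j) t)) = (-1) ^ S.card * e (∑ j ∈ S, β j) t := by
      induction S using Finset.induction_on with
      | empty =>
        simp only [Finset.prod_empty, Finset.card_empty, pow_zero, Finset.sum_empty, one_mul]
        rw [e_zero]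
        rfl
      | insert i S hi ih =>
        rw [Finset.prod_insert hi, ih (Finset.mem_univ _), Finset.card_insert_of_notMem hi, Finset.sum_insert hi,
          e_add']
        ring
    rw [h4, e_add']
    ring
  simp only [h1]
  rw [integral_finsetSum _ fun S _ => (cont_int (e _).continuous).const_mul _]
  refine Finset.sum_congr rfl fun S _ => ?_
  rw [integral_const_mul, int_e]

/-- invariance of the constant terms -/
theorem ct_inv {m : ℕ} {β : Fin m → Fin r → ℤ} {w : (Fin r → ℤ) ≃+ (Fin r → ℤ)}
    {σ : Equiv.Perm (Fin m)} (h : ∀ j, w (β j) = β (σ j)) (κ : Fin r → ℤ) :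
    ∫ t, e (w κ) t * ∏ j, (1 - e (β j) t) ∂(hT r) =
      ∫ t, e κ t * ∏ j, (1 - e (β j) t) ∂(hT r) := by
  have h1 : ∀ t, ∏ j, (1 - e (β j) t) = ∏ j, (1 - e (w (β j)) t) := by
    intro t
    simp only [h]
    exact (Equiv.prod_comp σ fun j => (1 - e (β j) t)).symm
  have h2 : ∫ t, e (w κ) t * ∏ j, (1 - e (β j) t) ∂(hT r) =
      ∫ t, e (w κ) t * ∏ j, (1 - e (w (β j)) t) ∂(hT r) := by
    simp only [h1]
  rw [h2, ct (fun j => w (β j)), ct]
  refine Finset.sum_congr rfl fun S _ => ?_
  have h3 : w κ + ∑ j ∈ S, w (β j) = w (κ + ∑ j ∈ S, β j) := by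
    rw [map_add, map_sum]
  rw [h3]
  simp only [EmbeddingLike.map_eq_zero_iff]

end Pool.Agent.T2H24.FC
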