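import Pool.Agent.T2H24.FC.Torus

set_option autoImplicit false
set_option linter.unusedSectionVars false
set_option linter.unusedVariables false

/-!
# Functionals dominated by a measure have a bounded density
-/

namespace Pool.Agent.T2H24.FC

open MeasureTheory Filter Topology ComplexConjugate
open scoped InnerProductSpace

section

variable {X : Type} [TopologicalSpace X] [CompactSpace X] [T2Space X] [SecondCountableTopology X]
  [MeasurableSpace X] [BorelSpace X]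
  {μ : Measure X} [IsFiniteMeasure μ] [μ.WeaklyRegular]

theorem int_norm_le (s : Lp ℂ 2 μ) : ∫ x, ‖s x‖ ∂μ ≤ (μ Set.univ).toReal ^ (1 / 2 : ℝ) * ‖s‖ := by
  have h1 := (Lp.memLp s)
  have h2 : eLpNorm s 1 μ ≤ eLpNorm s 2 μ * μ Set.univ ^ (1 / (1 : ENNReal).toReal -
      1 / (2 : ENNReal).toReal) :=
    eLpNorm_le_eLpNorm_mul_rpow_measure_univ (by norm_num) h1.aestronglyMeasurable
  have h3 : ∫ x, ‖s x‖ ∂μ = (eLpNorm s 1 μ).toReal := by
    rw [integral_norm_eq_lintegral_enorm h1.aestronglyMeasurable, eLpNorm_one_eq_lintegral_enorm]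
  rw [h3]
  have h4 : (1 / (1 : ENNReal).toReal - 1 / (2 : ENNReal).toReal) = 1 / 2 := by
    norm_num
  rw [h4] at h2
  have h5 : eLpNorm s 2 μ * μ Set.univ ^ (1 / 2 : ℝ) ≠ ⊤ :=
    ENNReal.mul_ne_top h1.2.ne (ENNReal.rpow_ne_top_of_nonneg (by norm_num) (measure_ne_top _ _))
  have h6 := ENNReal.toReal_mono h5 h2
  rw [ENNReal.toReal_mul, ← ENNReal.toReal_rpow, mul_comm] at h6
  exact h6

theorem exists_q (P : C(X, ℂ) →ₗ[ℂ] ℂ) (hP : ∀ f, ‖P f‖ ≤ ∫ x, ‖f x‖ ∂μ) :
    ∃ q : X → ℂ, Measurable q ∧ (∀ x, ‖q x‖ ≤ 1) ∧ ∀ f : C(X, ℂ), P f = ∫ x, f x * q x ∂μ := by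
  set ι : C(X, ℂ) →L[ℂ] Lp ℂ 2 μ := ContinuousMap.toLp 2 μ ℂ with hι
  have hcoe : ∀ f : C(X, ℂ), (ι f : X → ℂ) =ᵐ[μ] f := fun f => ContinuousMap.coeFn_toLp μ f
  have hdense : DenseRange ι := ContinuousMap.toLp_denseRange ℂ μ ℂ (by norm_num)
  have hb : ∀ f : C(X, ℂ), ∫ x, ‖f x‖ ∂μ = ∫ x, ‖ι f x‖ ∂μ := fun f =>
    integral_congr_ae ((hcoe f).mono fun x hx => by simp only [hx])
  set C : ℝ := (μ Set.univ).toReal ^ (1 / 2 : ℝ) with hC
  -- a section
  obtain ⟨σ, hσ⟩ := LinearMap.exists_rightInverse_of_surjective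
    ((ι : C(X, ℂ) →ₗ[ℂ] Lp ℂ 2 μ).rangeRestrict) (LinearMap.range_rangeRestrict _)
  have hσ' : ∀ s, ι (σ s) = s := by
    intro s
    have h1 := congrArg Subtype.val (LinearMap.congr_fun hσ s)
    exact h1
  set P1 : (LinearMap.range (ι : C(X, ℂ) →ₗ[ℂ] Lp ℂ 2 μ)) →ₗ[ℂ] ℂ := P.comp σ with hP1
  have hP1b : ∀ s, ‖P1 s‖ ≤ C * ‖s‖ := by
    intro s
    refine (hP (σ s)).trans ?_
    rw [hb, hσ']
    exact int_norm_le _
  obtain ⟨P2, hP2, -⟩ := exists_extension_norm_eq (𝕜 := ℂ)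
    (LinearMap.range (ι : C(X, ℂ) →ₗ[ℂ] Lp ℂ 2 μ)) (P1.mkContinuous C hP1b)
  have hP2' : ∀ f, P2 (ι f) = P f := by
    intro f
    have h1 := hP2 ⟨ι f, ⟨f, rfl⟩⟩
    rw [show (((⟨ι f, ⟨f, rfl⟩⟩ : LinearMap.range (ι : C(X, ℂ) →ₗ[ℂ] Lp ℂ 2 μ)) :
      Lp ℂ 2 μ)) = ι f from rfl] at h1
    rw [h1]
    change P (σ ⟨ι f, _⟩) = P f
    rw [← sub_eq_zero, ← map_sub, ← norm_le_zero_iff]
    refine (hP _).trans ?_
    rw [hb, map_sub, hσ']
    simp only [sub_self]
    have h2 : ∫ x, ‖(0 : Lp ℂ 2 μ) x‖ ∂μ = 0 := by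
      have h3 : ∫ x, ‖(0 : Lp ℂ 2 μ) x‖ ∂μ = ∫ _, (0 : ℝ) ∂μ :=
        integral_congr_ae ((Lp.coeFn_zero ℂ 2 μ).mono fun x hx => by simp only [hx]; simp)
      rw [h3, integral_zero]
    exact h2.le
  set q₀ : Lp ℂ 2 μ := (InnerProductSpace.toDual ℂ (Lp ℂ 2 μ)).symm P2 with hq₀
  have hin : ∀ s : Lp ℂ 2 μ, P2 s = ∫ x, s x * conj (q₀ x) ∂μ := by
    intro s
    rw [← InnerProductSpace.toDual_symm_apply (𝕜 := ℂ) (x := s) (y := P2), L2.inner_def]
    refine integral_congr_ae (Eventually.of_forall fun x => ?_)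
    simp only [RCLike.inner_apply]
    rfl
  -- the bound
  have hbd : ∀ s : Lp ℂ 2 μ, ‖P2 s‖ ≤ ∫ x, ‖s x‖ ∂μ := by
    have hcont : Continuous fun s : Lp ℂ 2 μ => ∫ x, ‖s x‖ ∂μ := by
      refine LipschitzWith.continuous (K := ⟨C, by positivity⟩) (LipschitzWith.of_dist_le_mul
        fun s s' => ?_)
      rw [Real.dist_eq, dist_eq_norm]
      have i1 : Integrable (fun x => ‖s x‖) μ := ((Lp.memLp s).integrable (by norm_num)).norm
      have i2 : Integrable (fun x => ‖s' x‖) μ := ((Lp.memLp s').integrable (by norm_num)).norm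
      rw [← integral_sub i1 i2]
      refine (abs_integral_le_integral_abs).trans ?_
      refine le_trans ?_ (int_norm_le (s - s'))
      refine integral_mono_ae (i1.sub i2).abs
        ((Lp.memLp (s - s')).integrable (by norm_num)).norm ?_
      filter_upwards [Lp.coeFn_sub s s'] with x hx
      rw [hx]
      exact abs_norm_sub_norm_le _ _
    intro s
    refine hdense.induction_on (p := fun s => ‖P2 s‖ ≤ ∫ x, ‖s x‖ ∂μ) s ?_ fun f => ?_
    · exact isClosed_le P2.continuous.norm hcont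
    · rw [hP2', ← hb]
      exact hP f
  have hq₀m : Measurable fun x => conj (q₀ x) :=
    Complex.continuous_conj.measurable.comp (Lp.stronglyMeasurable q₀).measurable
  set q₁ : X → ℂ := fun x => conj (q₀ x) with hq₁
  have hq₁i : Integrable q₁ μ := by
    have h1 : Integrable q₀ μ := (Lp.memLp q₀).integrable (by norm_num)
    exact (Complex.conjCLE.toContinuousLinearMap.integrable_comp h1)
  set A : Set X := {x | 1 < ‖q₁ x‖} with hA
  have hAm : MeasurableSet A := measurableSet_lt measurable_const hq₀m.norm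
  set u : X → ℂ := A.indicator fun x => conj (q₁ x) / ‖q₁ x‖ with hu
  have hum : Measurable u := by
    refine Measurable.indicator ?_ hAm
    exact (Complex.continuous_conj.measurable.comp hq₀m).div
      (Complex.measurable_ofReal.comp hq₀m.norm)
  have hub : ∀ x, ‖u x‖ = A.indicator (fun _ => (1 : ℝ)) x := by
    intro x
    rw [hu, norm_indicator_eq_indicator_norm]
    by_cases hx : x ∈ A
    · rw [Set.indicator_of_mem hx, Set.indicator_of_mem hx]
      have h1 : (0 : ℝ) < ‖q₁ x‖ := lt_trans zero_lt_one hx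
      rw [norm_div, Complex.norm_conj, Complex.norm_real, norm_norm, div_self h1.ne']
    · rw [Set.indicator_of_notMem hx, Set.indicator_of_notMem hx]
  have hub1 : ∀ x, ‖u x‖ ≤ 1 := by
    intro x
    rw [hub]
    exact Set.indicator_le_self' (fun _ _ => zero_le_one) x
  have huL : MemLp u 2 μ := MemLp.of_bound hum.aestronglyMeasurable 1 (Eventually.of_forall hub1)
  have h1 := hbd (huL.toLp u)
  rw [hin] at h1
  have h2 : ∫ x, (huL.toLp u) x * conj (q₀ x) ∂μ = ∫ x, u x * q₁ x ∂μ :=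
    integral_congr_ae (huL.coeFn_toLp.mono fun x hx => by simp only [hx, hq₁])
  have h3 : ∫ x, ‖(huL.toLp u) x‖ ∂μ = ∫ x, ‖u x‖ ∂μ :=
    integral_congr_ae (huL.coeFn_toLp.mono fun x hx => by simp only [hx])
  rw [h2, h3] at h1
  have h4 : ∀ x, u x * q₁ x = ((A.indicator (fun x => ‖q₁ x‖) x : ℝ) : ℂ) := by
    intro x
    rw [hu]
    by_cases hx : x ∈ A
    · rw [Set.indicator_of_mem hx, Set.indicator_of_mem hx]
      have h5 : (0 : ℝ) < ‖q₁ x‖ := lt_trans zero_lt_one hx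
      have h6 : (‖q₁ x‖ : ℂ) ≠ 0 := by exact_mod_cast h5.ne'
      rw [div_mul_eq_mul_div, Complex.conj_mul', sq, mul_div_assoc, div_self h6, mul_one]
    · rw [Set.indicator_of_notMem hx, Set.indicator_of_notMem hx]
      simp
  simp only [h4, hub] at h1
  rw [integral_complex_ofReal, Complex.norm_real, Real.norm_of_nonneg
    (integral_nonneg fun x => Set.indicator_nonneg (fun _ _ => norm_nonneg _) x)] at h1
  have i1 : Integrable (A.indicator fun x => ‖q₁ x‖) μ := hq₁i.norm.indicator hAm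
  have i2 : Integrable (A.indicator fun _ => (1 : ℝ)) μ := (integrable_const _).indicator hAm
  have h5 : ∫ x, (A.indicator (fun x => ‖q₁ x‖) x - A.indicator (fun _ => (1 : ℝ)) x) ∂μ ≤ 0 := by
    rw [integral_sub i1 i2]
    linarith
  have h6 : ∀ x, 0 ≤ A.indicator (fun x => ‖q₁ x‖) x - A.indicator (fun _ => (1 : ℝ)) x := by
    intro x
    by_cases hx : x ∈ A
    · rw [Set.indicator_of_mem hx, Set.indicator_of_mem hx]
      have : 1 < ‖q₁ x‖ := hx
      linarith
    · rw [Set.indicator_of_notMem hx, Set.indicator_of_notMem hx, sub_self]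
  have h7 := (integral_eq_zero_iff_of_nonneg h6 (i1.sub i2)).1
    (le_antisymm h5 (integral_nonneg h6))
  have h8 : ∀ᵐ x ∂μ, x ∉ A := by
    refine h7.mono fun x hx hxA => ?_
    simp only [Set.indicator_of_mem hxA, Pi.zero_apply] at hx
    have : 1 < ‖q₁ x‖ := hxA
    linarith
  refine ⟨Aᶜ.indicator q₁, hq₀m.indicator hAm.compl, fun x => ?_, fun f => ?_⟩
  · by_cases hx : x ∈ A
    · rw [Set.indicator_of_notMem (show x ∉ Aᶜ from fun h => h hx), norm_zero]
      exact zero_le_one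
    · rw [Set.indicator_of_mem hx]
      exact not_lt.1 hx
  · rw [← hP2', hin]
    refine integral_congr_ae ?_
    filter_upwards [hcoe f, h8] with x hx hxA
    rw [hx, Set.indicator_of_mem (show x ∈ Aᶜ from hxA)]

end

end Pool.Agent.T2H24.FC
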