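import Pool.Agent.T2H24.FC.Final

set_option autoImplicit false
set_option linter.unusedSectionVars false
set_option linter.unusedVariables false

/-!
# The complex mean values at the point one, and the law for the Dirichlet density
-/

namespace Pool.Agent.T2H24.FC

open Filter Topology ComplexConjugate MeasureTheory NumberField IsDedekindDomain
  Pool.Agent.TH553.RS Pool.Agent.TH553.ST Pool.Agent.H341R2 Pool.Agent.T2H24.SU
  Pool.Agent.T2H24.GR Pool.Agent.W540.BE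

section

variable {K : Type} [Field K] [NumberField K]

/-- the values of the logarithmic derivative near the point one -/
theorem bd_S1 {b : ℕ} {α : HeightOneSpectrum (𝓞 K) → Fin b → ℂ} (hα : ∀ v j, ‖α v j‖ = 1)
    {L : ℂ → ℂ} (hL : ∀ s : ℂ, 1 < s.re →
      L s = ∏' v, (∏ j, (1 - α v j * ((nm K v : ℕ) : ℂ) ^ (-s)))⁻¹)
    (hc : ∃ Λ : ℂ → ℂ, AnalyticAt ℂ Λ 1 ∧ Λ 1 ≠ 0 ∧
      ∀ᶠ s in 𝓝 (1 : ℂ), 1 < s.re → Λ s = L s) :
    ∃ y, Tendsto (S fun v => ∑ j, α v j) (𝓝[{s : ℂ | 1 < s.re}] 1) (𝓝 y) := by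
  obtain ⟨Λ, h1, h2, h3⟩ := hc
  have hmem : (1 : ℂ) ∈ Hp := by
    have : (3 / 4 : ℝ) < (1 : ℂ).re := by norm_num
    exact this
  have hR : AnalyticAt ℂ (Rt α) 1 := (diff_Rt hα).analyticAt (isOpen_Hp.mem_nhds hmem)
  refine ⟨deriv (Rt α) 1 - deriv Λ 1 / Λ 1, ?_⟩
  have h4 : Tendsto (fun z => deriv (Rt α) z - deriv Λ z / Λ z) (𝓝[{s : ℂ | 1 < s.re}] 1)
      (𝓝 (deriv (Rt α) 1 - deriv Λ 1 / Λ 1)) :=
    (hR.deriv.continuousAt.sub (h1.deriv.continuousAt.div h1.continuousAt h2)).mono_left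
      nhdsWithin_le_nhds
  refine h4.congr' ?_
  filter_upwards [h3.eventually_nhds.filter_mono nhdsWithin_le_nhds, self_mem_nhdsWithin]
    with z hz hre
  have h5 : Λ =ᶠ[𝓝 z] L := by
    filter_upwards [hz, (isOpen_lt continuous_const Complex.continuous_re).mem_nhds hre] with w hw hw1
    exact hw hw1
  rw [(S_eq hα hL hre).2, h5.deriv_eq, h5.eq_of_nhds]

/-- a path -/
theorem path1 : Tendsto (fun ε : ℝ => (1 : ℂ) + ε) (𝓝[>] 0) (𝓝[{s : ℂ | 1 < s.re}] 1) := by
  rw [tendsto_nhdsWithin_iff]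
  constructor
  · have h1 : Tendsto (fun ε : ℝ => (1 : ℂ) + ε) (𝓝 0) (𝓝 ((1 : ℂ) + (0 : ℝ))) :=
      (continuous_const.add Complex.continuous_ofReal).tendsto 0
    rw [Complex.ofReal_zero, add_zero] at h1
    exact h1.mono_left nhdsWithin_le_nhds
  · filter_upwards [self_mem_nhdsWithin] with ε hε
    have : (0 : ℝ) < ε := hε
    simp only [Complex.add_re, Complex.one_re, Complex.ofReal_re]
    linarith

/-- the sum is bounded -/
theorem bd_F {t : HeightOneSpectrum (𝓞 K) → ℂ} {B : ℝ} (ht : ∀ v, ‖t v‖ ≤ B)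
    (h : ∃ y, Tendsto (S t) (𝓝[{s : ℂ | 1 < s.re}] 1) (𝓝 y)) :
    ∃ C : ℝ, ∀ᶠ ε : ℝ in 𝓝[>] 0, ‖LSeries (nf t) (1 + ε)‖ ≤ C := by
  obtain ⟨y, hy⟩ := h
  have h1 : ∀ᶠ ε : ℝ in 𝓝[>] 0, ‖S t (1 + ε)‖ ≤ ‖y‖ + 1 := by
    have h2 := (hy.comp path1).norm.eventually_lt_const (lt_add_one ‖y‖)
    exact h2.mono fun ε h => h.le
  obtain ⟨δ, hδ, h2⟩ := mem_nhdsGT_iff_exists_Ioo_subset.1 h1
  have hδ' : (0 : ℝ) < δ := hδ
  set F : ℝ → ℂ := fun ε => LSeries (nf t) (1 + ε) with hF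
  have hder : ∀ ε ∈ Set.Ioo 0 δ, HasDerivWithinAt F (-S t (1 + ε)) (Set.Ioo 0 δ) ε := by
    intro ε hε
    have h3 : 1 < ((1 : ℂ) + ε).re := by
      simp only [Complex.add_re, Complex.one_re, Complex.ofReal_re]
      linarith [hε.1]
    have h4 := deriv_nf ht h3
    have h5 : HasDerivAt (fun ε : ℝ => (1 : ℂ) + ε) 1 ε :=
      (Complex.ofRealCLM.hasDerivAt (x := ε)).const_add 1
    have h6 := h4.comp ε h5
    rw [mul_one] at h6
    exact h6.hasDerivWithinAt
  have hm : δ / 2 ∈ Set.Ioo 0 δ := ⟨by linarith, by linarith⟩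
  refine ⟨‖F (δ / 2)‖ + (‖y‖ + 1) * δ, ?_⟩
  filter_upwards [Ioo_mem_nhdsGT hδ'] with ε hε
  have h3 := (convex_Ioo (0 : ℝ) δ).norm_image_sub_le_of_norm_hasDerivWithin_le hder
    (fun ε hε => by rw [norm_neg]; exact h2 hε) hm hε
  have h4 : ‖ε - δ / 2‖ ≤ δ := by
    rw [Real.norm_eq_abs, abs_le]
    constructor <;> linarith [hε.1, hε.2]
  have h5 : ‖F ε‖ ≤ ‖F (δ / 2)‖ + ‖F ε - F (δ / 2)‖ := by
    have := norm_add_le (F (δ / 2)) (F ε - F (δ / 2))
    rwa [add_sub_cancel] at this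
  have h6 : (‖y‖ + 1) * ‖ε - δ / 2‖ ≤ (‖y‖ + 1) * δ :=
    mul_le_mul_of_nonneg_left h4 (by positivity)
  linarith

/-- sums over the primes -/
theorem EP_im {t : HeightOneSpectrum (𝓞 K) → ℂ} {B : ℝ} (ht : ∀ v, ‖t v‖ ≤ B) {ε : ℝ}
    (hε : 0 < ε) : EP (nm K) ε (fun v => (t v).im) = (LSeries (nf t) (1 + ε)).im := by
  have h1 : 1 < ((1 : ℂ) + ε).re := by
    simp only [Complex.add_re, Complex.one_re, Complex.ofReal_re]
    linarith
  rw [← tsum_eq_LSeries ht h1, Complex.im_tsum (summable_nm ht h1)]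
  unfold EP
  refine tsum_congr fun v => ?_
  have h2 : ((nm K v : ℕ) : ℂ) ^ (-((1 : ℂ) + ε)) = (((nm K v : ℝ) ^ (-(1 + ε)) : ℝ) : ℂ) := by
    rw [Complex.ofReal_cpow (Nat.cast_nonneg _)]
    push_cast
    rfl
  rw [h2, Complex.im_mul_ofReal]

/-- **The imaginary part of the mean value vanishes.** -/
theorem im_zero {G : Type} [Group G] [TopologicalSpace G] {x : HeightOneSpectrum (𝓞 K) → G}
    {π : Irr G} {Λ : ℂ → ℂ} (h : Con1 π x 0 Λ)
    (h0 : meromorphicOrderAt Λ 1 = ((0 : ℤ) : WithTop ℤ)) {U : Ultrafilter ℝ}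
    (hU : (U : Filter ℝ) ≤ 𝓝[>] 0) : (M (nm K) U fun v => (π.c (x v)).im) = 0 := by
  obtain ⟨α, h1, h2, h3⟩ := exists_al1 π.ρ x
  have hone : (1 : ℂ) + ((0 : ℝ) : ℂ) * Complex.I = 1 := by simp
  have hm : MeromorphicAt Λ 1 := by
    have := h.1
    rwa [hone] at this
  have hco : ∀ᶠ s in 𝓝 (1 : ℂ), (1 : ℝ) < s.re → Λ s = L1 π.ρ x s := by
    have := h.2
    rwa [hone] at this
  obtain ⟨g, h10, h11, h12⟩ := (meromorphicOrderAt_eq_int_iff hm).1 h0
  have hS := bd_S1 h1 (L := L1 π.ρ x) (fun s _ => by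
    unfold L1
    exact tprod_congr fun v => by rw [h3]) ⟨g, h10, h11, by
    rw [eventually_nhdsWithin_iff] at h12
    filter_upwards [h12, hco] with s h13 h14 h15
    have hne : s ≠ 1 := by
      intro h
      rw [h] at h15
      simp at h15
    have h16 := h13 hne
    rw [zpow_zero, one_smul] at h16
    rw [← h16, h14 h15]⟩
  have ht : ∀ v, ‖∑ j, α v j‖ ≤ (Fintype.card (Fin π.n) : ℝ) := sum_le h1
  obtain ⟨C, hC⟩ := bd_F ht hS
  have h4 : Tendsto (qt (nm K) fun v => (∑ j, α v j).im) (𝓝[>] 0) (𝓝 0) := by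
    have h5 : Tendsto (fun ε : ℝ => C / lam ε) (𝓝[>] 0) (𝓝 0) :=
      tendsto_const_nhds.div_atTop lam_tendsto
    refine squeeze_zero_norm' ?_ h5
    filter_upwards [hC, self_mem_nhdsWithin, lam_tendsto.eventually_gt_atTop 0] with ε h6 h7 h8
    unfold qt
    rw [EP_im ht h7, norm_div, Real.norm_of_nonneg h8.le]
    refine div_le_div_of_nonneg_right ?_ h8.le
    exact (Complex.abs_im_le_norm _).trans h6
  have h5 : (fun v => (π.c (x v)).im) = fun v => (∑ j, α v j).im := by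
    funext v
    rw [h2]
    rfl
  rw [h5]
  exact M_of_tendsto hU h4

end

section

variable {G : Type} [Group G] [TopologicalSpace G] [IsTopologicalGroup G] [CompactSpace G]
  [T2Space G] [MeasurableSpace G] [BorelSpace G] {μ : Measure G} [IsProbabilityMeasure μ]
  [μ.IsHaarMeasure]

theorem bc_G {P : Type} {f : G → ℂ} (hf : Continuous f) (x : P → G) : Bc fun p => f (x p) := by
  obtain ⟨C, hC⟩ := (isCompact_univ (X := G)).exists_bound_of_continuousOn hf.continuousOn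
  exact ⟨C, fun p => hC _ (Set.mem_univ _)⟩

/-- **The law for the Dirichlet density.** -/
theorem dir_law {P : Type} {N : P → ℕ} (hN : Sys N) {x : P → G}
    (h : ∀ π : Irr G, (∃ g, π.ρ g ≠ 1) → ∀ U : Ultrafilter ℝ, (U : Filter ℝ) ≤ 𝓝[>] 0 →
      (M N U fun p => (π.c (x p)).re) = 0 ∧ (M N U fun p => (π.c (x p)).im) = 0)
    {f : G → ℝ} (hf : Continuous f) (hcl : ∀ g h, f (h * g * h⁻¹) = f g) :
    Tendsto (qt N fun p => f (x p)) (𝓝[>] 0) (𝓝 (∫ g, f g ∂μ)) := by
  have hfc : Continuous fun g => (f g : ℂ) := Complex.continuous_ofReal.comp hf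
  have hbf : Bc fun p => (f (x p) : ℂ) := bc_G hfc x
  have hbf' : Bd fun p => f (x p) := by
    have := hbf.re
    simpa using this
  refine Pool.Agent.T2H24.SU.tendsto_of_M hN hbf' fun U hU => ?_
  have hchar : ∀ π : Irr G, Mc N U (fun p => π.c (x p)) = ∫ g, π.c g ∂μ := by
    intro π
    by_cases hnt : ∃ g, π.ρ g ≠ 1
    · have h1 : ∫ g, π.c g ∂μ = 0 := int_chi π.cont π.schur hnt
      rw [h1]
      apply Complex.ext
      · exact (h π hnt U hU).1
      · exact (h π hnt U hU).2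
    · push Not at hnt
      have h2 : ∀ g, π.c g = (π.n : ℂ) := fun g => chi_triv hnt g
      simp only [h2]
      apply Complex.ext
      · change (M N U fun _ => ((π.n : ℕ) : ℂ).re) = _
        rw [M_const hN hU]
        simp
      · change (M N U fun _ => ((π.n : ℕ) : ℂ).im) = _
        rw [M_const hN hU]
        simp
  have key : ∀ ε : ℝ, 0 < ε → ‖Mc N U (fun p => (f (x p) : ℂ)) - ∫ g, (f g : ℂ) ∂μ‖ ≤ 3 * ε := by
    intro ε hε
    obtain ⟨F, hF, hFf⟩ := class_dense hfc (fun g k => by rw [hcl]) hε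
    obtain ⟨J, _, r, a, hra⟩ := dec_irr hF
    have hFc : Continuous F := dec_cont hF
    have e1 : Mc N U (fun p => F (x p)) = ∫ g, F g ∂μ := by
      have e2 : ∀ s : Finset J, Mc N U (fun p => ∑ j ∈ s, a j * (r j).c (x p)) =
          ∑ j ∈ s, a j * ∫ g, (r j).c g ∂μ := by
        classical
        intro s
        induction s using Finset.induction_on with
        | empty =>
          simp only [Finset.sum_empty]
          apply Complex.ext
          · change (M N U fun _ => (0 : ℂ).re) = _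
            rw [M_const hN hU]
          · change (M N U fun _ => (0 : ℂ).im) = _
            rw [M_const hN hU]
        | insert j s hj ih =>
          have hb1 : Bc fun p => (r j).c (x p) := bc_G (r j).cc x
          have hb2 : Bc fun p => ∑ j ∈ s, a j * (r j).c (x p) :=
            Bc.sum s fun j _ => (Bc.const _).mul (bc_G (r j).cc x)
          simp only [Finset.sum_insert hj]
          rw [Mc_add hN hU ((Bc.const _).mul hb1) hb2, ih, Mc_mul hN hU hb1, hchar]
      simp only [hra]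
      rw [e2 Finset.univ, integral_finsetSum _ fun j _ => (intg (r j).cc).const_mul _]
      exact Finset.sum_congr rfl fun j _ => (integral_const_mul _ _).symm
    have e3 : ‖Mc N U (fun p => (f (x p) : ℂ)) - Mc N U (fun p => F (x p))‖ ≤ 2 * ε :=
      Mc_sub_le hN hU hbf (bc_G hFc x) fun p => hFf _
    have e4 : ‖(∫ g, F g ∂μ) - ∫ g, (f g : ℂ) ∂μ‖ ≤ ε := by
      rw [← integral_sub (intg hFc) (intg hfc)]
      refine (norm_integral_le_integral_norm _).trans ?_
      have h5 : ∫ g, ‖F g - (f g : ℂ)‖ ∂μ ≤ ∫ _, ε ∂μ := by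
        refine integral_mono (intg (hFc.sub hfc)).norm (integrable_const _) fun g => ?_
        simp only
        rw [norm_sub_rev]
        exact hFf g
      simpa using h5
    have e5 : Mc N U (fun p => (f (x p) : ℂ)) - ∫ g, (f g : ℂ) ∂μ =
        (Mc N U (fun p => (f (x p) : ℂ)) - Mc N U (fun p => F (x p))) +
          ((∫ g, F g ∂μ) - ∫ g, (f g : ℂ) ∂μ) := by
      rw [← e1]
      ring
    rw [e5]
    refine (norm_add_le _ _).trans ?_
    linarith
  have h1 : ‖Mc N U (fun p => (f (x p) : ℂ)) - ∫ g, (f g : ℂ) ∂μ‖ ≤ 0 := by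
    refine le_of_forall_pos_le_add fun ε hε => ?_
    have := key (ε / 3) (by positivity)
    linarith
  have h2 := sub_eq_zero.1 (norm_le_zero_iff.1 h1)
  rw [integral_complex_ofReal] at h2
  have h3 := congrArg Complex.re h2
  rw [Complex.ofReal_re] at h3
  rw [← h3]
  change _ = M N U fun p => ((f (x p) : ℝ) : ℂ).re
  simp only [Complex.ofReal_re]

end

end Pool.Agent.T2H24.FC
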