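import Pool.Agent.T2H24.FC.Test

set_option autoImplicit false
set_option linter.unusedSectionVars false
set_option linter.unusedVariables false

/-!
# The conclusions over number fields
-/

namespace Pool.Agent.T2H24.FC

open Filter Topology ComplexConjugate MeasureTheory NumberField IsDedekindDomain
  Pool.Agent.TH553.RS Pool.Agent.TH553.ST Pool.Agent.H341R2 Pool.Agent.T2H24.SU
  Pool.Agent.T2H24.GR Pool.Agent.W540.BE
open scoped ComplexOrder

variable {G : Type} [Group G] [TopologicalSpace G] [IsTopologicalGroup G] [CompactSpace G]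
  [MeasurableSpace G] [BorelSpace G] {μ : Measure G} [IsProbabilityMeasure μ] [μ.IsHaarMeasure]

/-- means of positive combinations of characters -/
theorem mean_ch {P : Type} {N : P → ℕ} (hN : Sys N) {U : Ultrafilter ℝ}
    (hU : (U : Filter ℝ) ≤ 𝓝[>] 0) {x : P → G}
    (hM : ∀ π : Irr G, (∃ g, π.ρ g ≠ 1) → (M N U fun p => (π.c (x p)).re) = 0)
    {φ : G → ℝ} (hφ : Ch fun g => (φ g : ℂ)) : (M N U fun p => φ (x p)) = ∫ g, φ g ∂μ := by
  obtain ⟨S, B, hS, hB0, hf, hB⟩ := hφ.dec μ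
  have : Nonempty (Irr G) := ⟨triv G⟩
  choose! r hrn hr using hS
  have h1 : (fun p => φ (x p)) = fun p => ∑ ψ ∈ S, B ψ * (ψ (x p)).re := by
    funext p
    have h2 := congrArg Complex.re (hf (x p))
    rw [Complex.ofReal_re, Complex.re_sum] at h2
    simp only [Complex.re_ofReal_mul] at h2
    exact h2
  have h3 : ∀ ψ ∈ S, Bd fun p => B ψ * (ψ (x p)).re := fun ψ hψ => by
    rw [hr ψ hψ]
    exact (bd_re _ x).const_mul _
  have h4 : (M N U fun p => φ (x p)) = ∑ ψ ∈ S, B ψ * M N U fun p => (ψ (x p)).re := by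
    rw [h1, M_sum hN hU S h3]
    refine Finset.sum_congr rfl fun ψ hψ => ?_
    refine M_const_mul hN hU ?_ _
    rw [hr ψ hψ]
    exact bd_re _ x
  have h5 : ((∫ g, φ g ∂μ : ℝ) : ℂ) = ∑ ψ ∈ S, (B ψ : ℂ) * ∫ g, ψ g ∂μ := by
    rw [← integral_complex_ofReal]
    simp only [hf]
    have h6 : ∀ ψ ∈ S, Integrable (fun g => (B ψ : ℂ) * ψ g) μ := fun ψ hψ => by
      rw [hr ψ hψ]
      exact (intg (r ψ).cc).const_mul _
    rw [integral_finsetSum _ h6]
    exact Finset.sum_congr rfl fun ψ _ => integral_const_mul _ _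
  have h6 : ((M N U fun p => φ (x p) : ℝ) : ℂ) = ((∫ g, φ g ∂μ : ℝ) : ℂ) := by
    rw [h4, h5]
    push_cast
    refine Finset.sum_congr rfl fun ψ hψ => ?_
    rw [hr ψ hψ, mean_eq (μ := μ) hN hU (r ψ) (hM _)]
  exact_mod_cast h6

include μ in
/-- the mean values with a twist -/
theorem abs_lt_one {P : Type} {N : P → ℕ} (hN : Sys N) (hpos : ∀ p, 0 < N p) {U : Ultrafilter ℝ}
    (hU : (U : Filter ℝ) ≤ 𝓝[>] 0) {x : P → G}
    (hM : ∀ π : Irr G, (∃ g, π.ρ g ≠ 1) → (M N U fun p => (π.c (x p)).re) = 0)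
    (π : Irr G) (hn : 2 ≤ π.n) (τ : ℝ) :
    |M N U fun p => (π.c (x p) * ((N p : ℕ) : ℂ) ^ (-(τ * Complex.I))).re| < 1 := by
  have hb : Bc fun p => π.c (x p) := ⟨π.n, fun p => norm_c_le π _⟩
  have hch2 : Ch fun g => ((‖π.c g‖ ^ 2 : ℝ) : ℂ) := by
    have h := (ch_c π).mul (ch_c π).conj
    refine (congrArg Ch (funext fun g => ?_)).mp h
    rw [Complex.mul_conj, Complex.normSq_eq_norm_sq]
  have hch4 : Ch fun g => ((‖π.c g‖ ^ 4 : ℝ) : ℂ) := by
    have h := hch2.mul hch2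
    refine (congrArg Ch (funext fun g => ?_)).mp h
    push_cast
    ring
  have h2 : (M N U fun p => ‖π.c (x p)‖ ^ 2) = 1 := by
    rw [mean_ch (μ := μ) hN hU hM (φ := fun g => ‖π.c g‖ ^ 2) hch2]
    exact int_sq π.cont π.schur (by omega)
  have h4 : 1 < M N U fun p => ‖π.c (x p)‖ ^ 4 := by
    rw [mean_ch (μ := μ) hN hU hM (φ := fun g => ‖π.c g‖ ^ 4) hch4]
    exact int_four π.cont π.schur hn
  have hbn : Bd fun p => ‖π.c (x p)‖ := hb.norm
  have hbn2 : Bd fun p => ‖π.c (x p)‖ ^ 2 := hbn.sq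
  have hbn4 : Bd fun p => ‖π.c (x p)‖ ^ 4 := by
    have h := hbn2.sq
    refine (congrArg Bd (funext fun p => ?_)).mp h
    ring
  -- the mean of the absolute value
  have hlt : (M N U fun p => ‖π.c (x p)‖) < 1 := by
    by_contra hcon
    push Not at hcon
    have h5 : (M N U fun p => (‖π.c (x p)‖ - 1) ^ 2) ≤ 0 := by
      have e1 : (fun p => (‖π.c (x p)‖ - 1) ^ 2) =
          fun p => (‖π.c (x p)‖ ^ 2 - 2 * ‖π.c (x p)‖) + 1 := by
        funext p
        ring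
      rw [e1, M_add hN hU (hbn2.sub (hbn.const_mul 2)) (Bd.const 1),
        M_sub hN hU hbn2 (hbn.const_mul 2), M_const_mul hN hU hbn, M_one hN hU, h2]
      linarith
    have h6 : (M N U fun p => (‖π.c (x p)‖ ^ 2 - 1) ^ 2) ≤ 0 := by
      have h7 : (M N U fun p => (‖π.c (x p)‖ ^ 2 - 1) ^ 2) ≤
          M N U fun p => ((π.n : ℝ) + 1) ^ 2 * (‖π.c (x p)‖ - 1) ^ 2 := by
        refine M_mono hN hU (hbn2.sub (Bd.const 1)).sq
          ((hbn.sub (Bd.const 1)).sq.const_mul _) fun p => ?_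
        have h8 : (‖π.c (x p)‖ ^ 2 - 1) ^ 2 = (‖π.c (x p)‖ + 1) ^ 2 * (‖π.c (x p)‖ - 1) ^ 2 := by
          ring
        rw [h8]
        refine mul_le_mul_of_nonneg_right ?_ (sq_nonneg _)
        have h9 := norm_c_le π (x p)
        exact pow_le_pow_left₀ (by positivity) (by linarith) 2
      rw [M_const_mul hN hU (hbn.sub (Bd.const 1)).sq] at h7
      refine h7.trans ?_
      have h8 : (0 : ℝ) ≤ ((π.n : ℝ) + 1) ^ 2 := by positivity
      exact mul_nonpos_of_nonneg_of_nonpos h8 h5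
    have e1 : (fun p => (‖π.c (x p)‖ ^ 2 - 1) ^ 2) =
        fun p => (‖π.c (x p)‖ ^ 4 - 2 * ‖π.c (x p)‖ ^ 2) + 1 := by
      funext p
      ring
    rw [e1, M_add hN hU (hbn4.sub (hbn2.const_mul 2)) (Bd.const 1),
      M_sub hN hU hbn4 (hbn2.const_mul 2), M_const_mul hN hU hbn2, M_one hN hU, h2] at h6
    linarith
  have hbt : Bc fun p => π.c (x p) * ((N p : ℕ) : ℂ) ^ (-(τ * Complex.I)) :=
    hb.mul ⟨1, fun p => (norm_cpow_I (hpos p) τ).le⟩
  have hnt : ∀ p, ‖π.c (x p) * ((N p : ℕ) : ℂ) ^ (-(τ * Complex.I))‖ = ‖π.c (x p)‖ := fun p => by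
    rw [norm_mul, norm_cpow_I (hpos p) τ, mul_one]
  rw [abs_lt]
  constructor
  · have h5 := M_mono hN hU (hbn.const_mul (-1)) hbt.re fun p => by
      have h6 := (abs_le.1 (Complex.abs_re_le_norm (π.c (x p) *
        ((N p : ℕ) : ℂ) ^ (-(τ * Complex.I))))).1
      rw [hnt] at h6
      linarith
    rw [M_const_mul hN hU hbn] at h5
    linarith
  · have h5 := M_mono hN hU hbt.re hbn fun p => by
      rw [← hnt p]
      exact Complex.re_le_norm _
    linarith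

section

variable {K : Type} [Field K] [NumberField K] {x : HeightOneSpectrum (𝓞 K) → G}

/-- continuation -/
def Con1 (π : Irr G) (x : HeightOneSpectrum (𝓞 K) → G) (τ : ℝ) (Λ : ℂ → ℂ) : Prop :=
  MeromorphicAt Λ (1 + τ * Complex.I) ∧
    ∀ᶠ s in 𝓝 ((1 : ℂ) + τ * Complex.I), (1 : ℝ) < s.re → Λ s = L1 π.ρ x s

/-- the order is a mean value -/
theorem order_mean {π : Irr G} {τ : ℝ} {Λ : ℂ → ℂ} (h : Con1 π x τ Λ) : ∃ m : ℤ,
    meromorphicOrderAt Λ (1 + τ * Complex.I) = ((-m : ℤ) : WithTop ℤ) ∧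
    ∀ U : Ultrafilter ℝ, (U : Filter ℝ) ≤ 𝓝[>] 0 →
      (M (nm K) U fun v => (π.c (x v) * ((nm K v : ℕ) : ℂ) ^ (-(τ * Complex.I))).re) = m := by
  obtain ⟨m, h1, h2⟩ := order_L1 h.1 h.2
  refine ⟨-m, by rw [h1, neg_neg], fun U hU => ?_⟩
  have h3 := (size_L1 π.ρ x τ).2.add h2
  simp only [sub_add_cancel, zero_add] at h3
  push_cast
  exact M_of_tendsto hU h3

theorem order_mean0 {π : Irr G} {Λ : ℂ → ℂ} (h : Con1 π x 0 Λ) : ∃ m : ℤ,
    meromorphicOrderAt Λ 1 = ((-m : ℤ) : WithTop ℤ) ∧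
    ∀ U : Ultrafilter ℝ, (U : Filter ℝ) ≤ 𝓝[>] 0 →
      (M (nm K) U fun v => (π.c (x v)).re) = m := by
  obtain ⟨m, h1, h2⟩ := order_mean h
  refine ⟨m, ?_, fun U hU => ?_⟩
  · simpa using h1
  · have := h2 U hU
    simpa using this

/-- **The theorem over number fields.** -/
theorem main {r m N : ℕ} (𝒲 : WT μ r m N) : ∃ (J : Type) (_ : Fintype J) (ρ : J → Irr G),
    (∀ j, ∃ g, (ρ j).ρ g ≠ 1) ∧ (∀ j, (ρ j).n ≠ 0) ∧
    ∀ (K : Type) [Field K] [NumberField K] (x : HeightOneSpectrum (𝓞 K) → G),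
      (∀ π : Irr G, π.n ≠ 0 → (∃ g, π.ρ g ≠ 1) → ∃ Λ, Con1 π x 0 Λ) →
      (∀ j, ∃ Λ, Con1 (ρ j) x 0 Λ ∧ 0 ≤ meromorphicOrderAt Λ 1) →
      (∀ π : Irr G, (∃ g, π.ρ g ≠ 1) → ∀ U : Ultrafilter ℝ, (U : Filter ℝ) ≤ 𝓝[>] 0 →
        (M (nm K) U fun v => (π.c (x v)).re) = 0) ∨
      ∃ (κ : Fin r → ℤ) (s : ℝ) (F : G → ℂ), κ ≠ 0 ∧ (s = 1 ∨ s = -1) ∧ (Continuous F) ∧
        (∀ g h, F (h * g * h⁻¹) = F g) ∧ (∀ t, F (𝒲.ι t) = 𝒲.F κ t) ∧
        Tendsto (qt (nm K) fun v => ‖F (x v) - s * N‖ ^ 2) (𝓝[>] 0) (𝓝 0) := by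
  obtain ⟨J, iJ, ρ, h1, h2, h3⟩ := fin_test 𝒲
  refine ⟨J, iJ, ρ, h1, h2, ?_⟩
  intro K _ _ x hc hp
  have hne : (𝓝[>] (0 : ℝ)).NeBot := inferInstance
  -- the means are integers which do not depend on the ultrafilter
  have hint : ∀ π : Irr G, ∃ k : ℤ, ∀ U : Ultrafilter ℝ, (U : Filter ℝ) ≤ 𝓝[>] 0 →
      (M (nm K) U fun v => (π.c (x v)).re) = k := by
    intro π
    by_cases hn : π.n = 0
    · refine ⟨0, fun U hU => ?_⟩
      have h1 : (fun v => (π.c (x v)).re) = fun _ => (0 : ℝ) := by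
        funext p
        rw [c_zero hn]
        simp
      rw [h1, M_const (sysF K) hU]
      simp
    by_cases hnt : ∃ g, π.ρ g ≠ 1
    · obtain ⟨Λ, hΛ⟩ := hc π hn hnt
      obtain ⟨m, -, hm⟩ := order_mean0 hΛ
      exact ⟨m, hm⟩
    · push Not at hnt
      refine ⟨π.n, fun U hU => ?_⟩
      have h2 : ∀ g, π.c g = (π.n : ℂ) := fun g => chi_triv hnt g
      simp only [h2, Complex.natCast_re]
      rw [M_const (sysF K) hU]
      simp
  choose k hk using hint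
  set U₀ : Ultrafilter ℝ := Ultrafilter.of (𝓝[>] (0 : ℝ)) with hUd
  have hU₀ : (U₀ : Filter ℝ) ≤ 𝓝[>] 0 := Ultrafilter.of_le _
  have hpM : ∀ j, (M (nm K) U₀ fun v => ((ρ j).c (x v)).re) ≤ 0 := by
    intro j
    obtain ⟨Λ, hΛ, h0⟩ := hp j
    obtain ⟨m, hm1, hm2⟩ := order_mean0 hΛ
    rw [hm2 U₀ hU₀]
    rw [hm1] at h0
    have h4 : (0 : ℤ) ≤ -m := by exact_mod_cast h0
    have h5 : m ≤ 0 := by omega
    exact_mod_cast h5
  rcases h3 (sysF K) hU₀ x (fun π => ⟨k π, hk π U₀ hU₀⟩) hpM with hA |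
      ⟨κ, s, J', iJ', π, a, hκ, hs, hF, hsum⟩
  · left
    intro π hnt U hU
    have h4 := hA π hnt
    rw [hk π U₀ hU₀] at h4
    rw [hk π U hU, h4]
  · right
    refine ⟨κ, s, fun g => ∑ j, (a j : ℂ) * (π j).c g, hκ, hs, ?_, ?_, fun t => (hF t).symm, ?_⟩
    · exact continuous_finsetSum _ fun j _ => continuous_const.mul (π j).cc
    · intro g h
      simp only [c_cls]
    · have hN0 : (0 : ℝ) < N := by exact_mod_cast 𝒲.pos
      have hFb : ∀ g, ‖∑ j, (a j : ℂ) * (π j).c g‖ ≤ N := by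
        intro g
        obtain ⟨h, t, rfl⟩ := 𝒲.surj g
        simp only [c_cls]
        rw [← hF t]
        unfold WT.F
        refine (norm_sum_le _ _).trans ?_
        simp only [norm_e]
        rw [Finset.sum_const, Finset.card_univ, Fintype.card_fin, nsmul_eq_mul, mul_one]
      have hb : Bc fun v => (∑ j, (a j : ℂ) * (π j).c (x v)) - s * N :=
        ⟨N + ‖(s : ℂ) * N‖, fun v => (norm_sub_le _ _).trans (add_le_add (hFb _) le_rfl)⟩
      refine Pool.Agent.T2H24.SU.tendsto_of_M (sysF K) hb.norm.sq fun U hU => ?_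
      have hre : (M (nm K) U fun v => (∑ j, (a j : ℂ) * (π j).c (x v)).re) = s * N := by
        rw [← hsum]
        have e1 : (fun v => (∑ j, (a j : ℂ) * (π j).c (x v)).re) =
            fun v => ∑ j, (a j : ℝ) * ((π j).c (x v)).re := by
          funext v
          rw [Complex.re_sum]
          refine Finset.sum_congr rfl fun j _ => ?_
          rw [← Complex.ofReal_intCast, Complex.re_ofReal_mul]
        rw [e1, M_sum (sysF K) hU _ fun j _ => (bd_re (π j) x).const_mul _]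
        refine Finset.sum_congr rfl fun j _ => ?_
        rw [M_const_mul (sysF K) hU (bd_re (π j) x), hk _ U hU, hk _ U₀ hU₀]
      have hs2 : s ^ 2 = 1 := by
        rcases hs with rfl | rfl <;> norm_num
      have hbF : Bc fun v => ∑ j, (a j : ℂ) * (π j).c (x v) := ⟨N, fun v => hFb _⟩
      have hle : (M (nm K) U fun v => ‖(∑ j, (a j : ℂ) * (π j).c (x v)) - s * N‖ ^ 2) ≤ 0 := by
        have h5 := M_mono (sysF K) hU (φ := fun v =>
          ‖(∑ j, (a j : ℂ) * (π j).c (x v)) - s * N‖ ^ 2)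
          (ψ := fun v => 2 * (N : ℝ) ^ 2 + (-(2 * s * N)) * (∑ j, (a j : ℂ) * (π j).c (x v)).re)
          hb.norm.sq ((Bd.const _).add (hbF.re.const_mul _)) fun v => by
            set z := ∑ j, (a j : ℂ) * (π j).c (x v) with hz
            have h6 : ‖z‖ ≤ N := hFb _
            have h7 : ‖z - s * N‖ ^ 2 = ‖z‖ ^ 2 - 2 * s * N * z.re + (s * N) ^ 2 := by
              have h8 : ((s : ℂ) * N) = ((s * N : ℝ) : ℂ) := by push_cast; rfl
              rw [h8, ← Complex.normSq_eq_norm_sq, Complex.normSq_sub, Complex.normSq_eq_norm_sq,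
                Complex.normSq_ofReal, Complex.conj_ofReal, mul_comm z, Complex.re_ofReal_mul]
              ring
            rw [h7]
            have h8 : ‖z‖ ^ 2 ≤ (N : ℝ) ^ 2 := pow_le_pow_left₀ (norm_nonneg _) h6 2
            nlinarith
        rw [M_add (sysF K) hU (Bd.const _) (hbF.re.const_mul _), M_const (sysF K) hU,
          M_const_mul (sysF K) hU hbF.re, hre] at h5
        refine h5.trans (le_of_eq ?_)
        linear_combination (-2 * (N : ℝ) ^ 2) * hs2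
      exact le_antisymm hle (M_nonneg (sysF K) hU hb.norm.sq fun v => by positivity)

/-- orders on the line -/
theorem order_line [T2Space G] (hM : ∀ π : Irr G, (∃ g, π.ρ g ≠ 1) → ∀ U : Ultrafilter ℝ,
    (U : Filter ℝ) ≤ 𝓝[>] 0 → (M (nm K) U fun v => (π.c (x v)).re) = 0)
    (hab : ∀ χ : G →* Circle, Continuous χ → (∃ g, χ g ≠ 1) →
      Tendsto (mn fun v => ((χ (x v) : Circle) : ℂ)) atTop (𝓝 0))
    (hc : ∀ π : Irr G, π.n ≠ 0 → (∃ g, π.ρ g ≠ 1) → ∀ τ : ℝ, ∃ Λ, Con1 π x τ Λ)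
    {f : G → ℂ} (hf : Continuous f) (hcl : ∀ g h, f (h * g * h⁻¹) = f g) :
    Tendsto (mn fun v => f (x v)) atTop (𝓝 (∫ g, f g ∂μ)) := by
  refine weyl (fun n π h1 h2 h3 => ?_) hf hcl
  set ρ : Irr G := ⟨n, π, h1, h2⟩ with hρ
  have hn0 : n ≠ 0 := ne_zero_of_nt h3
  by_cases hn : n = 1
  · have h4 := hab (dt.comp π) (dt_cont.comp h1) (by
      obtain ⟨g, hg⟩ := h3
      refine ⟨g, fun h => hg ?_⟩
      have h5 := dt_one hn (π g)
      change (dt (π g)) = 1 at h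
      rw [h] at h5
      have key2 : ∀ (n : ℕ) (A : Matrix.unitaryGroup (Fin n) ℂ), n = 1 →
          ((1 : Circle) : ℂ) = (A : Matrix (Fin n) (Fin n) ℂ).trace → A = 1 := by
        rintro n A rfl h4
        apply Subtype.ext
        rw [Matrix.trace_fin_one, Circle.coe_one] at h4
        ext i j
        rw [Subsingleton.elim i 0, Subsingleton.elim j 0, ← h4]
        simp
      exact key2 _ _ hn h5)
    refine h4.congr fun M => ?_
    congr 1
    funext v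
    exact dt_one hn (π (x v))
  · refine avg_L1 fun τ => ?_
    obtain ⟨Λ, hΛ⟩ := hc ρ hn0 h3 τ
    refine ⟨Λ, hΛ.1, hΛ.2, ?_⟩
    obtain ⟨m, hm1, hm2⟩ := order_mean hΛ
    have hne : (𝓝[>] (0 : ℝ)).NeBot := inferInstance
    set U₀ : Ultrafilter ℝ := Ultrafilter.of (𝓝[>] (0 : ℝ)) with hUd
    have hU₀ : (U₀ : Filter ℝ) ≤ 𝓝[>] 0 := Ultrafilter.of_le _
    have h4 := abs_lt_one (μ := μ) (sysF K) nm_pos hU₀ (fun π hnt => hM π hnt U₀ hU₀) ρ
      (by change 2 ≤ n; omega) τ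
    rw [hm2 U₀ hU₀] at h4
    have h5 : m = 0 := Int.abs_lt_one_iff.1 (by exact_mod_cast h4)
    rw [hm1, h5]
    simp

end

end Pool.Agent.T2H24.FC
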