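import Pool.Agent.T2H24.FC.Dens

set_option autoImplicit false
set_option linter.unusedSectionVars false
set_option linter.unusedVariables false

/-!
# Integral states on the torus near the measure of Weyl
-/

namespace Pool.Agent.T2H24.FC

open MeasureTheory Filter Topology ComplexConjugate Pool.Agent.T2H24.SU

variable {r : ℕ}

/-- Weyl's density -/
structure Dn (r m : ℕ) (N : ℕ) where
  α : Fin m → Fin r → ℤ
  ne : ∀ j, α j ≠ 0
  pos : 0 < N
  D : T r → ℝ
  cont : Continuous D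
  nn : ∀ t, 0 ≤ D t
  eq : ∀ t, (N : ℂ) * D t = ∏ j, (1 - e (α j) t)
  one : ∫ t, D t ∂(hT r) = 1

/-- its Fourier coefficients -/
noncomputable def Dn.c {m N : ℕ} (δ : Dn r m N) (κ : Fin r → ℤ) : ℂ :=
  ∫ t, e κ t * (δ.D t : ℂ) ∂(hT r)

instance (r : ℕ) : IsFiniteMeasure (hT r) := inferInstance

theorem cont_int {f : T r → ℂ} (hf : Continuous f) : Integrable f (hT r) :=
  hf.integrable_of_hasCompactSupport (HasCompactSupport.of_compactSpace _)

theorem cont_int' {f : T r → ℝ} (hf : Continuous f) : Integrable f (hT r) :=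
  hf.integrable_of_hasCompactSupport (HasCompactSupport.of_compactSpace _)

theorem cases_of_dom {m N : ℕ} (δ : Dn r m N) (P : C(T r, ℂ) →ₗ[ℂ] ℂ)
    (hP : ∀ f, ‖P f‖ ≤ ∫ t, ‖f t‖ * δ.D t ∂(hT r)) (hint : ∀ κ, IsInt (N * P (e κ))) :
    (∀ f, P f = 0) ∨ ∃ (κ : Fin r → ℤ) (s : ℂ), (s = 1 ∨ s = -1) ∧ P (e (-κ)) = s := by
  set μ : Measure (T r) := (hT r).withDensity fun t => ENNReal.ofReal (δ.D t) with hμ
  have hDm : Measurable fun t => ENNReal.ofReal (δ.D t) :=
    ENNReal.measurable_ofReal.comp δ.cont.measurable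
  have hfin : IsFiniteMeasure μ := by
    refine isFiniteMeasure_withDensity_ofReal ?_
    exact (cont_int' δ.cont).2
  have hI : ∀ f : T r → ℂ, ∫ t, f t ∂μ = ∫ t, f t * δ.D t ∂(hT r) := by
    intro f
    rw [hμ, integral_withDensity_eq_integral_toReal_smul hDm
      (Eventually.of_forall fun t => ENNReal.ofReal_lt_top)]
    refine integral_congr_ae (Eventually.of_forall fun t => ?_)
    simp only
    rw [ENNReal.toReal_ofReal (δ.nn t), Complex.real_smul, mul_comm]
  have hI' : ∀ f : T r → ℝ, ∫ t, f t ∂μ = ∫ t, f t * δ.D t ∂(hT r) := by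
    intro f
    rw [hμ, integral_withDensity_eq_integral_toReal_smul hDm
      (Eventually.of_forall fun t => ENNReal.ofReal_lt_top)]
    refine integral_congr_ae (Eventually.of_forall fun t => ?_)
    simp only
    rw [ENNReal.toReal_ofReal (δ.nn t), smul_eq_mul, mul_comm]
  obtain ⟨q, hq, hq1, hPq⟩ := exists_q (μ := μ) P fun f => by
    rw [hI']
    exact hP f
  simp only [hI] at hPq
  have h1 : ∀ κ, IsInt (co (fun t => (∏ j ∈ Finset.univ, (1 - e (δ.α j) t)) * q t) κ) := by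
    intro κ
    refine (congrArg IsInt ?_).mp (hint κ)
    rw [hPq]
    unfold co
    rw [← integral_const_mul]
    refine integral_congr_ae (Eventually.of_forall fun t => ?_)
    simp only
    rw [← δ.eq]
    ring
  have h2 := div_prod δ.ne Finset.univ hq hq1 h1
  rcases int_cases hq hq1 h2 with h3 | ⟨κ, s, hs, h3⟩
  · left
    intro f
    rw [hPq]
    have h4 : ∫ t, f t * q t * δ.D t ∂(hT r) = ∫ _, (0 : ℂ) ∂(hT r) :=
      integral_congr_ae (h3.mono fun t ht => by simp only [ht]; simp)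
    rw [h4, integral_zero]
  · right
    refine ⟨κ, s, hs, ?_⟩
    rw [hPq]
    have h4 : ∫ t, e (-κ) t * q t * δ.D t ∂(hT r) = ∫ t, s * ((δ.D t : ℝ) : ℂ) ∂(hT r) := by
      refine integral_congr_ae (h3.mono fun t ht => ?_)
      simp only [ht]
      have h5 : e (-κ) t * e κ t = 1 := by
        rw [← e_add', neg_add_cancel, e_zero]
        rfl
      linear_combination (s * (δ.D t : ℂ)) * h5
    rw [h4, integral_const_mul, integral_complex_ofReal, δ.one]
    simp

/-- the absolute value of a continuous function -/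
noncomputable def absC (f : C(T r, ℂ)) : C(T r, ℂ) := ⟨fun t => ((‖f t‖ : ℝ) : ℂ), by fun_prop⟩

/-- integral states -/
structure IState (N : ℕ) (L : C(T r, ℂ) →ₗ[ℂ] ℂ) : Prop where
  one : L 1 = 1
  bound : ∀ f, ‖L f‖ ≤ (L (absC f)).re
  int : ∀ κ, IsInt (N * L (e κ))

theorem IState.norm_le {N : ℕ} {L : C(T r, ℂ) →ₗ[ℂ] ℂ} (h : IState N L) (f : C(T r, ℂ)) :
    ‖L f‖ ≤ ‖f‖ := by
  refine (h.bound f).trans ?_
  have h1 : absC (((‖f‖ : ℝ) : ℂ) • (1 : C(T r, ℂ)) - absC f) =
      ((‖f‖ : ℝ) : ℂ) • (1 : C(T r, ℂ)) - absC f := by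
    ext t
    change ((‖((‖f‖ : ℝ) : ℂ) * 1 - ((‖f t‖ : ℝ) : ℂ)‖ : ℝ) : ℂ) =
      ((‖f‖ : ℝ) : ℂ) * 1 - ((‖f t‖ : ℝ) : ℂ)
    rw [mul_one, ← Complex.ofReal_sub, Complex.norm_real, Real.norm_of_nonneg]
    linarith [f.norm_coe_le_norm t]
  have h2 := h.bound (((‖f‖ : ℝ) : ℂ) • (1 : C(T r, ℂ)) - absC f)
  rw [h1] at h2
  have h3 := (norm_nonneg _).trans h2
  rw [map_sub, map_smul, h.one] at h3
  simp only [smul_eq_mul, mul_one, Complex.sub_re, Complex.ofReal_re] at h3
  linarith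

/-- convergence on characters implies convergence -/
theorem conv_of_char {ι : Type*} {p : Filter ι} {L : ι → C(T r, ℂ) →ₗ[ℂ] ℂ} {N : ℕ}
    (hL : ∀ i, IState N (L i)) {M : C(T r, ℂ) →ₗ[ℂ] ℂ} (hM : ∀ f, ‖M f‖ ≤ ‖f‖)
    (h : ∀ κ, Tendsto (fun i => L i (e κ)) p (𝓝 (M (e κ)))) (f : C(T r, ℂ)) :
    Tendsto (fun i => L i f) p (𝓝 (M f)) := by
  set S : Submodule ℂ C(T r, ℂ) :=
    { carrier := {f | Tendsto (fun i => L i f) p (𝓝 (M f))}
      add_mem' := fun {f g} (hf : Tendsto _ _ _) (hg : Tendsto _ _ _) => by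
        change Tendsto _ _ _
        simp only [map_add]
        exact hf.add hg
      zero_mem' := by
        change Tendsto _ _ _
        simp only [map_zero]
        exact tendsto_const_nhds
      smul_mem' := fun c f (hf : Tendsto _ _ _) => by
        change Tendsto _ _ _
        simp only [map_smul]
        exact hf.const_smul c } with hS
  have hcl : IsClosed (S : Set C(T r, ℂ)) := by
    rw [← isSeqClosed_iff_isClosed]
    intro u f hu huf
    change Tendsto _ _ _
    rw [Metric.tendsto_nhds]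
    intro ε hε
    obtain ⟨n, hn⟩ := (Metric.tendsto_atTop.1 huf (ε / 3) (by positivity))
    have hn' := hn n le_rfl
    rw [dist_eq_norm] at hn'
    have h1 : Tendsto (fun i => L i (u n)) p (𝓝 (M (u n))) := hu n
    have h2 := (Metric.tendsto_nhds.1 h1) (ε / 3) (by positivity)
    filter_upwards [h2] with i hi
    rw [dist_eq_norm] at hi ⊢
    have h3 : L i f - M f = -(L i (u n - f)) + (L i (u n) - M (u n)) + M (u n - f) := by
      rw [map_sub, map_sub]
      ring
    rw [h3]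
    have h4 : ‖L i (u n - f)‖ < ε / 3 := lt_of_le_of_lt ((hL i).norm_le _) hn'
    have h5 : ‖M (u n - f)‖ < ε / 3 := lt_of_le_of_lt (hM _) hn'
    calc ‖-(L i (u n - f)) + (L i (u n) - M (u n)) + M (u n - f)‖
        ≤ ‖-(L i (u n - f)) + (L i (u n) - M (u n))‖ + ‖M (u n - f)‖ := norm_add_le _ _
      _ ≤ ‖-(L i (u n - f))‖ + ‖L i (u n) - M (u n)‖ + ‖M (u n - f)‖ := by
          gcongr
          exact norm_add_le _ _
      _ < ε / 3 + ε / 3 + ε / 3 := by
          rw [norm_neg]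
          gcongr
      _ = ε := by ring
  have h1 : Submodule.span ℂ (Set.range (e (r := r))) ≤ S := by
    rw [Submodule.span_le]
    rintro _ ⟨κ, rfl⟩
    exact h κ
  have h2 : (Submodule.span ℂ (Set.range (e (r := r)))).topologicalClosure ≤ S :=
    Submodule.topologicalClosure_minimal _ h1 hcl
  have h3 : (Submodule.span ℂ (Set.range (e (r := r)))).topologicalClosure = ⊤ :=
    UnitAddTorus.span_mFourier_closure_eq_top
  rw [h3] at h2
  exact h2 Submodule.mem_top

/-- the state of the density -/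
noncomputable def Dn.st {m N : ℕ} (δ : Dn r m N) : C(T r, ℂ) →ₗ[ℂ] ℂ where
  toFun f := ∫ t, f t * (δ.D t : ℂ) ∂(hT r)
  map_add' f g := by
    have h1 : Continuous fun t => f t * (δ.D t : ℂ) :=
      f.continuous.mul (Complex.continuous_ofReal.comp δ.cont)
    have h2 : Continuous fun t => g t * (δ.D t : ℂ) :=
      g.continuous.mul (Complex.continuous_ofReal.comp δ.cont)
    rw [← integral_add (cont_int h1) (cont_int h2)]
    refine integral_congr_ae (Eventually.of_forall fun t => ?_)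
    simp only [ContinuousMap.add_apply]
    ring
  map_smul' c f := by
    simp only [RingHom.id_apply, smul_eq_mul]
    rw [← integral_const_mul]
    refine integral_congr_ae (Eventually.of_forall fun t => ?_)
    simp only [ContinuousMap.smul_apply, smul_eq_mul]
    ring

theorem Dn.st_norm {m N : ℕ} (δ : Dn r m N) (f : C(T r, ℂ)) :
    ‖δ.st f‖ ≤ ∫ t, ‖f t‖ * δ.D t ∂(hT r) := by
  change ‖∫ t, f t * (δ.D t : ℂ) ∂(hT r)‖ ≤ _
  refine (norm_integral_le_integral_norm _).trans (le_of_eq ?_)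
  refine integral_congr_ae (Eventually.of_forall fun t => ?_)
  simp only
  rw [norm_mul, Complex.norm_real, Real.norm_of_nonneg (δ.nn t)]

theorem Dn.st_le {m N : ℕ} (δ : Dn r m N) (f : C(T r, ℂ)) : ‖δ.st f‖ ≤ ‖f‖ := by
  refine (δ.st_norm f).trans ?_
  have h1 : ∫ t, ‖f t‖ * δ.D t ∂(hT r) ≤ ∫ t, ‖f‖ * δ.D t ∂(hT r) := by
    refine integral_mono (cont_int' (f.continuous.norm.mul δ.cont))
      (cont_int' (continuous_const.mul δ.cont)) fun t => ?_
    exact mul_le_mul_of_nonneg_right (f.norm_coe_le_norm t) (δ.nn t)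
  rw [integral_const_mul, δ.one, mul_one] at h1
  exact h1

theorem Dn.st_e {m N : ℕ} (δ : Dn r m N) (κ : Fin r → ℤ) : δ.st (e κ) = δ.c κ := rfl

theorem Dn.st_abs {m N : ℕ} (δ : Dn r m N) (f : C(T r, ℂ)) :
    (δ.st (absC f)).re = ∫ t, ‖f t‖ * δ.D t ∂(hT r) := by
  change (∫ t, ((‖f t‖ : ℝ) : ℂ) * (δ.D t : ℂ) ∂(hT r)).re = _
  have h1 : ∫ t, ((‖f t‖ : ℝ) : ℂ) * (δ.D t : ℂ) ∂(hT r) =
      ((∫ t, ‖f t‖ * δ.D t ∂(hT r) : ℝ) : ℂ) := by
    rw [← integral_complex_ofReal]
    refine integral_congr_ae (Eventually.of_forall fun t => ?_)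
    simp only
    push_cast
    rfl
  rw [h1, Complex.ofReal_re]

theorem Dn.c_zero {m N : ℕ} (δ : Dn r m N) : Tendsto δ.c cofinite (𝓝 0) := by
  obtain ⟨C, hC⟩ := (isCompact_univ (X := T r)).exists_bound_of_continuousOn δ.cont.continuousOn
  exact riemann_lebesgue (Complex.measurable_ofReal.comp δ.cont.measurable) (C := C) fun t => by
    rw [Complex.norm_real]
    exact hC t (Set.mem_univ t)

theorem int_abs_ge {z : ℂ} (h : IsInt z) (h0 : z ≠ 0) : 1 ≤ ‖z‖ := by
  obtain ⟨k, rfl⟩ := h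
  rw [Complex.norm_intCast]
  have hk : k ≠ 0 := by
    rintro rfl
    simp at h0
  have : 1 ≤ |k| := Int.one_le_abs hk
  exact_mod_cast this

/-- **Isolation.**  Integral states which agree with the measure of Weyl on a certain finite set of
characters agree with it on all characters, or have an absolute value one somewhere. -/
theorem isolation {m N : ℕ} (δ : Dn r m N) :
    ∃ Φ : Finset (Fin r → ℤ), ∀ L : C(T r, ℂ) →ₗ[ℂ] ℂ, IState N L →
      (∀ κ ∈ Φ, L (e κ) = δ.c κ) → (∀ κ, L (e κ) = δ.c κ) ∨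
        ∃ (l : Fin r → ℤ) (s : ℂ), l ≠ 0 ∧ (s = 1 ∨ s = -1) ∧ L (e l) = s := by
  by_contra hcon
  push Not at hcon
  choose L hL hag hbad hnd using hcon
  choose l hl using hbad
  have hne : (atTop : Filter (Finset (Fin r → ℤ))).NeBot := inferInstance
  set p : Ultrafilter (Finset (Fin r → ℤ)) := Ultrafilter.of atTop with hp
  have hple : (p : Filter (Finset (Fin r → ℤ))) ≤ atTop := Ultrafilter.of_le _
  have hmem : ∀ κ, ∀ᶠ Φ in (p : Filter (Finset (Fin r → ℤ))), κ ∈ Φ := fun κ =>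
    hple ((eventually_ge_atTop {κ}).mono fun Φ hΦ => hΦ (Finset.mem_singleton_self κ))
  have hlΦ : ∀ Φ, l Φ ∉ Φ := fun Φ h => hl Φ (hag Φ _ h)
  -- the limit on continuous functions
  have hlim : ∀ f : C(T r, ℂ), Tendsto (fun Φ => L Φ f) p (𝓝 (δ.st f)) := fun f =>
    conv_of_char hL δ.st_le (fun κ => by
      rw [δ.st_e]
      exact tendsto_const_nhds.congr' ((hmem κ).mono fun Φ h => (hag Φ κ h).symm)) f
  -- the shifted functional
  have hex : ∀ f : C(T r, ℂ), ∃ z : ℂ, Tendsto (fun Φ => L Φ (e (l Φ) * f)) p (𝓝 z) := by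
    intro f
    have h1 : ∀ Φ, ‖L Φ (e (l Φ) * f)‖ ≤ ‖f‖ := by
      intro Φ
      refine ((hL Φ).norm_le _).trans ?_
      refine (ContinuousMap.norm_le _ (norm_nonneg _)).2 fun t => ?_
      rw [ContinuousMap.mul_apply, norm_mul, norm_e, one_mul]
      exact f.norm_coe_le_norm t
    obtain ⟨z, hz⟩ := exists_lim p h1
    first
      | exact ⟨z, hz.1⟩
      | exact ⟨z, hz.2⟩
      | exact ⟨z, hz⟩
  choose Pf hPf using hex
  set P : C(T r, ℂ) →ₗ[ℂ] ℂ :=
    { toFun := Pf
      map_add' := fun f g => by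
        refine tendsto_nhds_unique (hPf (f + g)) (((hPf f).add (hPf g)).congr fun Φ => ?_)
        rw [mul_add, map_add]
      map_smul' := fun c f => by
        refine tendsto_nhds_unique (hPf (c • f)) (((hPf f).const_smul c).congr fun Φ => ?_)
        rw [mul_smul_comm, map_smul, smul_eq_mul] } with hP
  have hPlim : ∀ f, Tendsto (fun Φ => L Φ (e (l Φ) * f)) p (𝓝 (P f)) := hPf
  have hPb : ∀ f, ‖P f‖ ≤ ∫ t, ‖f t‖ * δ.D t ∂(hT r) := by
    intro f
    rw [← δ.st_abs]
    refine le_of_tendsto_of_tendsto (hPlim f).norm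
      ((Complex.continuous_re.tendsto _).comp (hlim (absC f))) (Eventually.of_forall fun Φ => ?_)
    refine ((hL Φ).bound _).trans (le_of_eq ?_)
    simp only [Function.comp]
    congr 2
    ext t
    change ((‖(e (l Φ) t) * f t‖ : ℝ) : ℂ) = ((‖f t‖ : ℝ) : ℂ)
    rw [norm_mul, norm_e, one_mul]
  have hPi : ∀ κ, IsInt (N * P (e κ)) := by
    intro κ
    refine isInt_closed.mem_of_tendsto ((hPlim (e κ)).const_mul (N : ℂ))
      (Eventually.of_forall fun Φ => ?_)
    rw [← e_add]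
    exact (hL Φ).int _
  have hN0 : (N : ℂ) ≠ 0 := by exact_mod_cast δ.pos.ne'
  rcases cases_of_dom δ P hPb hPi with h0 | ⟨κ, s, hs, hκ⟩
  · -- the limit cannot vanish
    have h1 : Tendsto (fun Φ => L Φ (e (l Φ))) p (𝓝 0) := by
      have := hPlim 1
      rw [h0] at this
      refine this.congr fun Φ => ?_
      rw [mul_one]
    have hfin : {κ | ¬ ‖δ.c κ‖ < 1 / (N : ℝ)}.Finite := by
      have h2 := (tendsto_zero_iff_norm_tendsto_zero.1 δ.c_zero).eventually_lt_const
        (show (0 : ℝ) < 1 / N by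
          have : (0 : ℝ) < N := by exact_mod_cast δ.pos
          positivity)
      exact Filter.eventually_cofinite.1 h2
    have hci : ∀ κ, IsInt (N * δ.c κ) := by
      intro κ
      obtain ⟨Φ, hΦ⟩ := (hmem κ).exists
      rw [← hag Φ κ hΦ]
      exact (hL Φ).int κ
    have hc0 : ∀ κ, ‖δ.c κ‖ < 1 / (N : ℝ) → δ.c κ = 0 := by
      intro κ h
      by_contra hne0
      have h3 := int_abs_ge (hci κ) (mul_ne_zero hN0 hne0)
      rw [norm_mul, Complex.norm_natCast] at h3
      have hN' : (0 : ℝ) < N := by exact_mod_cast δ.pos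
      rw [lt_div_iff₀ hN'] at h
      linarith
    have h2 : ∀ᶠ Φ in (p : Filter (Finset (Fin r → ℤ))), δ.c (l Φ) = 0 := by
      have h3 : ∀ᶠ Φ in (p : Filter (Finset (Fin r → ℤ))), hfin.toFinset ≤ Φ :=
        hple (eventually_ge_atTop _)
      refine h3.mono fun Φ h => hc0 _ ?_
      by_contra h4
      exact hlΦ Φ (h (hfin.mem_toFinset.2 h4))
    have h3 : ∀ᶠ Φ in (p : Filter (Finset (Fin r → ℤ))), 1 ≤ (N : ℝ) * ‖L Φ (e (l Φ))‖ := by
      refine h2.mono fun Φ h => ?_
      have h4 : L Φ (e (l Φ)) ≠ 0 := fun h5 => hl Φ (by rw [h5, h])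
      have h5 := int_abs_ge ((hL Φ).int (l Φ)) (mul_ne_zero hN0 h4)
      rwa [norm_mul, Complex.norm_natCast] at h5
    have h4 : Tendsto (fun Φ => (N : ℝ) * ‖L Φ (e (l Φ))‖) p (𝓝 0) := by
      have := h1.norm.const_mul (N : ℝ)
      simpa using this
    have h5 := ge_of_tendsto h4 h3
    linarith
  · -- the state has absolute value one somewhere
    have h1 : Tendsto (fun Φ => (N : ℂ) * L Φ (e (l Φ - κ))) p (𝓝 (N * s)) := by
      have h2 := (hPlim (e (-κ))).const_mul (N : ℂ)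
      rw [hκ] at h2
      refine h2.congr fun Φ => ?_
      rw [← e_add, sub_eq_add_neg]
    have hsi : IsInt ((N : ℂ) * s) := by
      rcases hs with rfl | rfl
      · exact ⟨N, by simp⟩
      · exact ⟨-N, by simp⟩
    have h2 : ∀ᶠ Φ in (p : Filter (Finset (Fin r → ℤ))), (N : ℂ) * L Φ (e (l Φ - κ)) = N * s := by
      filter_upwards [(Metric.tendsto_nhds.1 h1) 1 one_pos] with Φ h3
      exact IsInt.eq_of_dist ((hL Φ).int _) hsi h3
    obtain ⟨Φ, h3, h4⟩ := (h2.and (hmem κ)).exists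
    refine hnd Φ (l Φ - κ) s ?_ hs (mul_left_cancel₀ hN0 h3)
    intro h5
    have h6 := hlΦ Φ
    rw [sub_eq_zero.1 h5] at h6
    exact h6 h4

end Pool.Agent.T2H24.FC
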