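import Pool.Agent.T2H24.FC.Weyl
import Pool.Agent.T2H24.GR.Goursat

set_option autoImplicit false
set_option linter.unusedSectionVars false
set_option linter.unusedVariables false

/-!
# The finite test
-/

namespace Pool.Agent.T2H24.FC

open Filter Topology ComplexConjugate MeasureTheory
  Pool.Agent.TH553.RS Pool.Agent.TH553.ST Pool.Agent.H341R2 Pool.Agent.T2H24.SU
  Pool.Agent.T2H24.GR
open scoped ComplexOrder

variable {G : Type} [Group G] [TopologicalSpace G] [IsTopologicalGroup G] [CompactSpace G]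
  [MeasurableSpace G] [BorelSpace G] {μ : Measure G} [IsProbabilityMeasure μ] [μ.IsHaarMeasure]

theorem bd_re {P : Type} (π : Irr G) (x : P → G) : Bd fun p => (π.c (x p)).re :=
  (show Bc fun p => π.c (x p) from ⟨π.n, fun p => norm_c_le π _⟩).re

include μ in
/-- the test for one representation -/
theorem test1 (π : Irr G) : ∃ (J : Type) (_ : Fintype J) (ρ : J → Irr G),
    (∀ j, ∃ g, (ρ j).ρ g ≠ 1) ∧ (∀ j, (ρ j).n ≠ 0) ∧
    ∀ {P : Type} {N : P → ℕ} (hN : Sys N) {U : Ultrafilter ℝ} (hU : (U : Filter ℝ) ≤ 𝓝[>] 0)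
      (x : P → G), (∃ k : ℤ, (M N U fun p => (π.c (x p)).re) = k) →
      (∀ j, (M N U fun p => ((ρ j).c (x p)).re) ≤ 0) → (∃ g, π.ρ g ≠ 1) →
      (M N U fun p => (π.c (x p)).re) = 0 ∨
        (π.n = 1 ∧ (M N U fun p => (π.c (x p)).re) = -1) := by
  by_cases h0 : π.n = 0
  · refine ⟨Empty, inferInstance, Empty.elim, fun j => j.elim, fun j => j.elim, ?_⟩
    intro P N hN U hU x _ _ _
    left
    have h1 : (fun p => (π.c (x p)).re) = fun _ => (0 : ℝ) := by
      funext p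
      rw [c_zero h0]
      simp
    rw [h1]
    exact M_const hN hU 0
  by_cases h1 : ∃ g, π.ρ g ≠ 1
  swap
  · exact ⟨Empty, inferInstance, Empty.elim, fun j => j.elim, fun j => j.elim,
      fun hN U hU x _ _ h => absurd h h1⟩
  by_cases h2 : π.n = 1
  · refine ⟨Unit, inferInstance, fun _ => π, fun _ => h1, fun _ => h0, ?_⟩
    intro P N hN U hU x hk hM _
    obtain ⟨k, hk⟩ := hk
    have h3 := hM ()
    simp only at h3
    have h4 : -1 ≤ M N U fun p => (π.c (x p)).re := by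
      have h5 := M_mono hN hU (Bd.const (-1)) (bd_re π x) fun p => by
        have h6 := (abs_le.1 ((Complex.abs_re_le_norm (π.c (x p))).trans (norm_c_le π _))).1
        rw [h2] at h6
        simpa using h6
      rw [M_const hN hU] at h5
      exact h5
    rw [hk] at h3 h4 ⊢
    have h5 : k ≤ 0 := by exact_mod_cast h3
    have h6 : -1 ≤ k := by exact_mod_cast h4
    rcases (by omega : k = 0 ∨ k = -1) with rfl | rfl
    · left; simp
    · right; exact ⟨h2, by simp⟩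
  · obtain ⟨J, _, ρ, h3, h4, h5⟩ := kernel μ π (by omega)
    refine ⟨Option J, inferInstance, fun j => j.elim π ρ, ?_, ?_, ?_⟩
    · rintro (_ | j)
      · exact h1
      · exact h3 j
    · rintro (_ | j)
      · exact h0
      · exact h4 j
    · intro P N hN U hU x hk hM _
      obtain ⟨k, hk⟩ := hk
      left
      have h6 := h5 hN hU x fun j => hM (some j)
      have h7 := hM none
      simp only [Option.elim_none] at h7
      rw [hk] at h6 h7 ⊢
      have h8 : k ≤ 0 := by exact_mod_cast h7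
      have h9 : -1 < k := by exact_mod_cast h6
      have h10 : k = 0 := by omega
      rw [h10]
      simp

variable {r m N : ℕ} (𝒲 : WT μ r m N)

/-- pull back to the torus -/
noncomputable def pb (π : Irr G) : C(T r, ℂ) := ⟨fun t => π.c (𝒲.ι t), π.cc.comp 𝒲.cont⟩

theorem c_rep {P : Type} {x : P → G} {t : P → T r} (ht : ∀ p, ∃ h, x p = h * 𝒲.ι (t p) * h⁻¹)
    (π : Irr G) (p : P) : π.c (x p) = π.c (𝒲.ι (t p)) := by
  obtain ⟨h, hh⟩ := ht p
  rw [hh, c_cls]

theorem sy_pb (π : Irr G) (t : T r) : sy 𝒲 (pb 𝒲 π) t = (((π.c (𝒲.ι t)).re : ℝ) : ℂ) := by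
  unfold sy
  have h1 : ∀ i, pb 𝒲 π (act (𝒲.w i : (Fin r → ℤ) →+ (Fin r → ℤ)) t) +
      pb 𝒲 π (-(act (𝒲.w i : (Fin r → ℤ) →+ (Fin r → ℤ)) t)) =
      ((2 * (π.c (𝒲.ι t)).re : ℝ) : ℂ) := by
    intro i
    change π.c (𝒲.ι _) + π.c (𝒲.ι (-_)) = _
    obtain ⟨h, hh⟩ := inv_act 𝒲 i t
    rw [neg_ι, c_inv, hh, c_cls, Complex.add_conj]
  simp only [h1]
  rw [Finset.sum_const, Finset.card_univ, Fintype.card_fin, nsmul_eq_mul]
  have hN : (N : ℂ) ≠ 0 := by exact_mod_cast 𝒲.pos.ne'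
  push_cast
  field_simp

/-- integrality -/
theorem int_F {P : Type} {N' : P → ℕ} (hN : Sys N') {U : Ultrafilter ℝ}
    (hU : (U : Filter ℝ) ≤ 𝓝[>] 0) {x : P → G} {t : P → T r}
    (ht : ∀ p, ∃ h, x p = h * 𝒲.ι (t p) * h⁻¹) {κ : Fin r → ℤ} {J : Type} [Fintype J]
    {π : J → Irr G} {a : J → ℤ} (h : ∀ t, 𝒲.F κ t = ∑ j, a j * (π j).c (𝒲.ι t)) :
    (M N' U fun p => (𝒲.F κ (t p)).re) = ∑ j, (a j : ℝ) * M N' U fun p => ((π j).c (x p)).re := by
  have h1 : (fun p => (𝒲.F κ (t p)).re) = fun p => ∑ j, (a j : ℝ) * ((π j).c (x p)).re := by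
    funext p
    rw [h, Complex.re_sum]
    refine Finset.sum_congr rfl fun j _ => ?_
    rw [c_rep 𝒲 ht, ← Complex.ofReal_intCast, Complex.re_ofReal_mul]
  rw [h1, M_sum hN hU _ fun j _ => (bd_re (π j) x).const_mul _]
  exact Finset.sum_congr rfl fun j _ => M_const_mul hN hU (bd_re (π j) x) _

/-- the coefficients of the density -/
theorem coef_dn {κ : Fin r → ℤ} {J : Type} [Fintype J]
    {π : J → Irr G} {a : J → ℤ} (h : ∀ t, 𝒲.F κ t = ∑ j, a j * (π j).c (𝒲.ι t)) :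
    (N : ℂ) * 𝒲.dn.c κ = ∑ j, (a j : ℂ) * ∫ g, (π j).c g ∂μ := by
  have h1 : (N : ℂ) * 𝒲.dn.c κ = ∑ i, 𝒲.dn.c (𝒲.w i κ) := by
    simp only [dn_inv]
    rw [Finset.sum_const, Finset.card_univ, Fintype.card_fin, nsmul_eq_mul]
  have hDc : Continuous fun t => (𝒲.dn.D t : ℂ) := Complex.continuous_ofReal.comp 𝒲.dn.cont
  have h2 : ∑ i, 𝒲.dn.c (𝒲.w i κ) = ∫ t, 𝒲.F κ t * (𝒲.dn.D t : ℂ) ∂(hT r) := by
    unfold Dn.c WT.F
    simp only [Finset.sum_mul]
    have h3 : ∀ i, Integrable (fun t => e (𝒲.w i κ) t * (𝒲.dn.D t : ℂ)) (hT r) := fun i =>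
      cont_int ((e _).continuous.mul hDc)
    rw [integral_finsetSum _ fun i _ => h3 i]
  rw [h1, h2]
  simp only [h, Finset.sum_mul, mul_assoc]
  have h3 : ∀ j, Integrable (fun t => (a j : ℂ) * ((π j).c (𝒲.ι t) * (𝒲.dn.D t : ℂ))) (hT r) :=
    fun j => (cont_int (((π j).cc.comp 𝒲.cont).mul hDc)).const_mul _
  rw [integral_finsetSum _ fun j _ => h3 j]
  refine Finset.sum_congr rfl fun j _ => ?_
  rw [integral_const_mul, weyl' 𝒲 (π j).cc fun g h => c_cls _ _ _]

theorem one_of_triv {π : Irr G} (h0 : π.n ≠ 0) (h : ∀ g, π.ρ g = 1) : π.n = 1 := by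
  by_contra hne
  have hn : 2 ≤ π.n := by omega
  obtain ⟨e, he⟩ := π.schur (Matrix.single ⟨0, by omega⟩ ⟨0, by omega⟩ 1) fun g => by
    rw [h g]
    simp
  have h3 := congrFun (congrFun he ⟨0, by omega⟩) ⟨0, by omega⟩
  have h4 := congrFun (congrFun he ⟨1, by omega⟩) ⟨1, by omega⟩
  simp at h3 h4
  rw [← h3] at h4
  norm_num at h4

/-- the mean and the integral agree when the mean of a nontrivial character vanishes -/
theorem mean_eq {P : Type} {N' : P → ℕ} (hN : Sys N') {U : Ultrafilter ℝ}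
    (hU : (U : Filter ℝ) ≤ 𝓝[>] 0) {x : P → G} (π : Irr G)
    (h : (∃ g, π.ρ g ≠ 1) → (M N' U fun p => (π.c (x p)).re) = 0) :
    (((M N' U fun p => (π.c (x p)).re) : ℝ) : ℂ) = ∫ g, π.c g ∂μ := by
  by_cases h1 : ∃ g, π.ρ g ≠ 1
  · have h2 : ∫ g, π.c g ∂μ = 0 := int_chi π.cont π.schur h1
    rw [h h1, h2]
    simp
  · push Not at h1
    have h2 : ∀ g, π.c g = (π.n : ℂ) := fun g => chi_triv h1 g
    simp only [h2, Complex.natCast_re]
    rw [M_const hN hU]
    simp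

/-- a one-dimensional representation on the torus -/
theorem char_one {π : Irr G} (h1 : π.n = 1) (hnt : ∃ g, π.ρ g ≠ 1) :
    ∃ κ : Fin r → ℤ, κ ≠ 0 ∧ ∀ t, 𝒲.F κ t = (N : ℂ) * π.c (𝒲.ι t) := by
  have hmul : ∀ g h, π.c (g * h) = π.c g * π.c h := by
    intro g h
    have e1 := dt_one h1 (π.ρ (g * h))
    have e2 := dt_one h1 (π.ρ g)
    have e3 := dt_one h1 (π.ρ h)
    change (π.ρ (g * h) : Matrix (Fin π.n) (Fin π.n) ℂ).trace =
      (π.ρ g : Matrix (Fin π.n) (Fin π.n) ℂ).trace * (π.ρ h : Matrix (Fin π.n) (Fin π.n) ℂ).trace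
    rw [← e1, ← e2, ← e3, map_mul, map_mul, Circle.coe_mul]
  have hnorm : ∀ g, ‖π.c g‖ = 1 := by
    intro g
    have e2 := dt_one h1 (π.ρ g)
    change ‖(π.ρ g : Matrix (Fin π.n) (Fin π.n) ℂ).trace‖ = 1
    rw [← e2]
    exact Circle.norm_coe _
  set f : T r → ℂ := fun t => π.c (𝒲.ι t) with hf
  have hfc : Continuous f := π.cc.comp 𝒲.cont
  have hfm : ∀ s t, f (s + t) = f s * f t := fun s t => by
    rw [hf]
    simp only
    rw [𝒲.add, hmul]
  obtain ⟨κ, hκ⟩ : ∃ κ, co f κ ≠ 0 := by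
    by_contra hcon
    push Not at hcon
    have h2 := parseval hfc.measurable (C := 1) fun t => (hnorm _).le
    simp only [hcon, norm_zero] at h2
    have h3 : HasSum (fun _ : Fin r → ℤ => (0 : ℝ) ^ 2) 0 := by
      simp
    have h4 := h2.unique h3
    have h5 : ∫ t, ‖f t‖ ^ 2 ∂(hT r) = 1 := by
      have : ∀ t, ‖f t‖ ^ 2 = 1 := fun t => by rw [hf]; simp only; rw [hnorm]; norm_num
      simp only [this]
      simp
    rw [h5] at h4
    exact one_ne_zero h4
  have hinv : (hT r).IsAddLeftInvariant := by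
    unfold hT
    infer_instance
  have h2 : ∀ s, e κ s * f s = 1 := by
    intro s
    have h3 : co f κ = (e κ s * f s) * co f κ := by
      unfold co
      rw [← integral_const_mul]
      have h4 := integral_add_left_eq_self (μ := hT r) (fun t => e κ t * f t) s
      rw [← h4]
      refine integral_congr_ae (Eventually.of_forall fun t => ?_)
      simp only
      rw [hfm]
      have h5 : e κ (s + t) = e κ s * e κ t := by
        rw [e_toCircle, e_toCircle, e_toCircle, ← Circle.coe_mul, ← AddCircle.toCircle_add,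
          ← Finset.sum_add_distrib]
        congr 3
        funext i
        rw [Pi.add_apply, smul_add]
      rw [h5]
      ring
    have h6 : (1 : ℂ) * co f κ = (e κ s * f s) * co f κ := by rw [one_mul]; exact h3
    exact (mul_right_cancel₀ hκ h6).symm
  have h3 : ∀ t, f t = e (-κ) t := by
    intro t
    have h4 : e (-κ) t * e κ t = 1 := by
      rw [← e_add', neg_add_cancel, e_zero]
      rfl
    calc f t = (e (-κ) t * e κ t) * f t := by rw [h4, one_mul]
      _ = e (-κ) t * (e κ t * f t) := by ring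
      _ = e (-κ) t := by rw [h2, mul_one]
  refine ⟨-κ, ?_, fun t => ?_⟩
  · intro h0
    obtain ⟨g, hg⟩ := hnt
    apply hg
    have h4 : ∀ g, π.c g = 1 := by
      intro g
      obtain ⟨h, t, rfl⟩ := 𝒲.surj g
      rw [c_cls]
      change f t = 1
      rw [h3, h0, e_zero]
      rfl
    have key2 : ∀ (n : ℕ) (A : Matrix.unitaryGroup (Fin n) ℂ), n = 1 →
        (A : Matrix (Fin n) (Fin n) ℂ).trace = 1 → A = 1 := by
      rintro n A rfl h4
      apply Subtype.ext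
      rw [Matrix.trace_fin_one] at h4
      ext i j
      rw [Subsingleton.elim i 0, Subsingleton.elim j 0, h4]
      simp
    exact key2 _ _ h1 (h4 g)
  · unfold WT.F
    have h4 : ∀ i, e (𝒲.w i (-κ)) t = π.c (𝒲.ι t) := by
      intro i
      have h5 := e_act (𝒲.w i : (Fin r → ℤ) →+ (Fin r → ℤ)) (-κ) t
      change e (-κ) _ = e (𝒲.w i (-κ)) t at h5
      rw [← h5, ← h3]
      change π.c (𝒲.ι _) = _
      obtain ⟨h, hh⟩ := inv_act 𝒲 i t
      rw [hh, c_cls]
    simp only [h4]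
    rw [Finset.sum_const, Finset.card_univ, Fintype.card_fin, nsmul_eq_mul]

/-- **The finite test.** -/
theorem fin_test : ∃ (J : Type) (_ : Fintype J) (ρ : J → Irr G),
    (∀ j, ∃ g, (ρ j).ρ g ≠ 1) ∧ (∀ j, (ρ j).n ≠ 0) ∧
    ∀ {P : Type} {N' : P → ℕ} (hN : Sys N') {U : Ultrafilter ℝ} (hU : (U : Filter ℝ) ≤ 𝓝[>] 0)
      (x : P → G), (∀ π : Irr G, ∃ k : ℤ, (M N' U fun p => (π.c (x p)).re) = k) →
      (∀ j, (M N' U fun p => ((ρ j).c (x p)).re) ≤ 0) →
      (∀ π : Irr G, (∃ g, π.ρ g ≠ 1) → (M N' U fun p => (π.c (x p)).re) = 0) ∨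
      ∃ (κ : Fin r → ℤ) (s : ℝ) (J' : Type) (_ : Fintype J') (π : J' → Irr G) (a : J' → ℤ),
        κ ≠ 0 ∧ (s = 1 ∨ s = -1) ∧ (∀ t, 𝒲.F κ t = ∑ j, a j * (π j).c (𝒲.ι t)) ∧
        (∑ j, (a j : ℝ) * M N' U fun p => ((π j).c (x p)).re) = s * N := by
  classical
  obtain ⟨Φ, hΦ⟩ := isolation 𝒲.dn
  choose J iJ π a hch using 𝒲.char
  choose J1 iJ1 ρ1 h1 h2 h3 using fun π : Irr G => test1 (μ := μ) π
  refine ⟨Σ κ : Φ, Σ j : J κ.1, J1 (π κ.1 j), inferInstance, fun q => ρ1 _ q.2.2,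
    fun q => h1 _ q.2.2, fun q => h2 _ q.2.2, ?_⟩
  intro P N' hN U hU x hint hM
  choose h t ht using fun p => 𝒲.surj (x p)
  have ht' : ∀ p, ∃ h, x p = h * 𝒲.ι (t p) * h⁻¹ := fun p => ⟨h p, ht p⟩
  have hNc : (N : ℂ) ≠ 0 := by exact_mod_cast 𝒲.pos.ne'
  -- the state
  have hst : IState N (st 𝒲 hN hU t) := st_state 𝒲 hN hU t fun κ => by
    rw [int_F 𝒲 hN hU ht' (hch κ)]
    choose k hk using fun j => hint (π κ j)
    refine ⟨∑ j, a κ j * k j, ?_⟩
    push_cast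
    exact Finset.sum_congr rfl fun j _ => by rw [hk]
  have hste : ∀ κ, (N : ℂ) * st 𝒲 hN hU t (e κ) =
      ((∑ j, (a κ j : ℝ) * M N' U fun p => ((π κ j).c (x p)).re : ℝ) : ℂ) := by
    intro κ
    rw [← int_F 𝒲 hN hU ht' (hch κ), st_apply, ← Mc_mul hN hU (bc_sy 𝒲 (e κ) t)]
    simp only [sy_e]
    apply Complex.ext
    · change (M N' U fun p => (((𝒲.F κ (t p)).re : ℝ) : ℂ).re) = _
      simp only [Complex.ofReal_re]
    · change (M N' U fun p => (((𝒲.F κ (t p)).re : ℝ) : ℂ).im) = _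
      simp only [Complex.ofReal_im]
      exact M_const hN hU 0
  by_cases hA : ∃ (κ : Φ) (j : J κ.1), (∃ g, (π κ.1 j).ρ g ≠ 1) ∧ (π κ.1 j).n = 1 ∧
      (M N' U fun p => ((π κ.1 j).c (x p)).re) = -1
  · right
    obtain ⟨κ, j, hnt, hn1, hm⟩ := hA
    obtain ⟨κ', hκ', hF⟩ := char_one 𝒲 hn1 hnt
    refine ⟨κ', -1, Unit, inferInstance, fun _ => π κ.1 j, fun _ => N, hκ', Or.inr rfl,
      fun t => ?_, ?_⟩
    · rw [hF]
      simp
    · simp only [Finset.univ_unique, Finset.sum_singleton]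
      rw [hm]
      push_cast
      ring
  · push Not at hA
    have hzero : ∀ κ ∈ Φ, ∀ j : J κ, (∃ g, (π κ j).ρ g ≠ 1) →
        (M N' U fun p => ((π κ j).c (x p)).re) = 0 := by
      intro κ hκ j hnt
      rcases h3 (π κ j) hN hU x (hint _) (fun j' => hM ⟨⟨κ, hκ⟩, j, j'⟩) hnt with h | h
      · exact h
      · exact absurd h.2 (hA ⟨κ, hκ⟩ j hnt h.1)
    have hag : ∀ κ ∈ Φ, st 𝒲 hN hU t (e κ) = 𝒲.dn.c κ := by
      intro κ hκ
      refine mul_left_cancel₀ hNc ?_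
      rw [hste, coef_dn 𝒲 (hch κ)]
      push_cast
      refine Finset.sum_congr rfl fun j _ => ?_
      rw [mean_eq (μ := μ) hN hU (π κ j) (hzero κ hκ j)]
    rcases hΦ _ hst hag with hall | ⟨l, s, hl, hs, hls⟩
    · left
      intro ρ hnt
      have h5 := conv_of_char (ι := Unit) (p := pure ()) (L := fun _ => st 𝒲 hN hU t)
        (fun _ => hst) (M := 𝒲.dn.st) 𝒲.dn.st_le (fun κ => by
          rw [hall, 𝒲.dn.st_e]
          exact tendsto_const_nhds) (pb 𝒲 ρ)
      have h6 := tendsto_nhds_unique tendsto_const_nhds h5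
      have h7 : 𝒲.dn.st (pb 𝒲 ρ) = 0 := by
        change ∫ t, ρ.c (𝒲.ι t) * (𝒲.dn.D t : ℂ) ∂(hT r) = 0
        rw [← weyl' 𝒲 ρ.cc fun g h => c_cls _ _ _]
        exact int_chi ρ.cont ρ.schur hnt
      rw [h7, st_apply] at h6
      have h8 := congrArg Complex.re h6
      change (M N' U fun p => (sy 𝒲 (pb 𝒲 ρ) (t p)).re) = 0 at h8
      simp only [sy_pb, Complex.ofReal_re] at h8
      rw [← h8]
      congr 1
      funext p
      rw [c_rep 𝒲 ht']
    · right
      rcases hs with rfl | rfl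
      · refine ⟨l, 1, J l, iJ l, π l, a l, hl, Or.inl rfl, hch l, ?_⟩
        have h5 := hste l
        rw [hls] at h5
        rw [one_mul]
        rw [mul_one] at h5
        exact_mod_cast h5.symm
      · refine ⟨l, -1, J l, iJ l, π l, a l, hl, Or.inr rfl, hch l, ?_⟩
        have h5 := hste l
        rw [hls] at h5
        have h6 : (((-1 : ℝ) * N : ℝ) : ℂ) = (N : ℂ) * (-1) := by push_cast; ring
        rw [← h6] at h5
        exact_mod_cast h5.symm

end Pool.Agent.T2H24.FC
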