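import Pool.Agent.T2H24.SU.Weak

set_option autoImplicit false
set_option linter.unusedSectionVars false
set_option linter.unusedVariables false

/-!
# Bounded functions on the torus with integral Fourier coefficients
-/

namespace Pool.Agent.T2H24.FC

open MeasureTheory UnitAddTorus Filter Topology ComplexConjugate Pool.Agent.T2H24.SU

/-- the normalised measure on the circle -/
noncomputable local instance : MeasureSpace UnitAddCircle := ⟨AddCircle.haarAddCircle⟩

local instance : Measure.IsAddHaarMeasure (volume : Measure UnitAddCircle) :=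
  inferInstanceAs (Measure.IsAddHaarMeasure AddCircle.haarAddCircle)

local instance : IsProbabilityMeasure (volume : Measure UnitAddCircle) :=
  inferInstanceAs (IsProbabilityMeasure AddCircle.haarAddCircle)

/-- the torus -/
abbrev T (r : ℕ) : Type := UnitAddTorus (Fin r)

/-- the normalised Haar measure -/
noncomputable def hT (r : ℕ) : Measure (T r) := Measure.pi fun _ => AddCircle.haarAddCircle

theorem hT_eq (r : ℕ) : hT r = (volume : Measure (T r)) := rfl

variable {r : ℕ}

/-- the characters -/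
noncomputable def e (κ : Fin r → ℤ) : C(T r, ℂ) := mFourier κ

theorem e_zero : e (0 : Fin r → ℤ) = 1 := mFourier_zero

theorem e_add (κ l : Fin r → ℤ) : e (κ + l) = e κ * e l := by
  ext t
  exact mFourier_add

theorem e_add' (κ l : Fin r → ℤ) (t : T r) : e (κ + l) t = e κ t * e l t := mFourier_add

theorem e_neg (κ : Fin r → ℤ) (t : T r) : e (-κ) t = conj (e κ t) := mFourier_neg

theorem norm_e (κ : Fin r → ℤ) (t : T r) : ‖e κ t‖ = 1 := by
  change ‖∏ i, fourier (κ i) (t i)‖ = 1
  rw [norm_prod]
  refine Finset.prod_eq_one fun i _ => ?_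
  rw [fourier_apply]
  exact Circle.norm_coe _

instance : IsProbabilityMeasure (hT r) := by
  unfold hT
  infer_instance

theorem integrable_of_bd {q : T r → ℂ} (hq : Measurable q) {C : ℝ} (hC : ∀ t, ‖q t‖ ≤ C) :
    Integrable q (hT r) :=
  Integrable.of_bound hq.aestronglyMeasurable C (Eventually.of_forall hC)

/-- the Fourier coefficients -/
noncomputable def co (q : T r → ℂ) (κ : Fin r → ℤ) : ℂ := ∫ t, e κ t * q t ∂(hT r)

theorem co_eq (q : T r → ℂ) (κ : Fin r → ℤ) : co q κ = mFourierCoeff q (-κ) := by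
  unfold co mFourierCoeff
  rw [neg_neg]
  rfl

theorem parseval {q : T r → ℂ} (hq : Measurable q) {C : ℝ} (hC : ∀ t, ‖q t‖ ≤ C) :
    HasSum (fun κ => ‖co q κ‖ ^ 2) (∫ t, ‖q t‖ ^ 2 ∂(hT r)) := by
  have h1 : MemLp q 2 (volume : Measure (T r)) :=
    MemLp.of_bound hq.aestronglyMeasurable C (Eventually.of_forall hC)
  have h2 := hasSum_sq_mFourierCoeff (h1.toLp q)
  have h3 : (h1.toLp q : T r → ℂ) =ᵐ[volume] q := h1.coeFn_toLp
  have h4 : ∫ t, ‖(h1.toLp q : T r → ℂ) t‖ ^ 2 = ∫ t, ‖q t‖ ^ 2 ∂(hT r) :=
    integral_congr_ae (h3.mono fun t ht => by simp only [ht])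
  have h5 : ∀ κ, mFourierCoeff (h1.toLp q : T r → ℂ) κ = mFourierCoeff q κ := fun κ =>
    integral_congr_ae (h3.mono fun t ht => by simp only [ht])
  rw [h4] at h2
  have h6 := (Equiv.neg (Fin r → ℤ)).hasSum_iff.2 h2
  have h7 : (fun κ => ‖co q κ‖ ^ 2) =
      (fun i => ‖mFourierCoeff (h1.toLp q : T r → ℂ) i‖ ^ 2) ∘ (Equiv.neg (Fin r → ℤ)) := by
    funext κ
    simp only [Function.comp, Equiv.neg_apply]
    rw [h5, co_eq]
  rw [h7]
  exact h6

/-- the coefficients tend to zero -/
theorem riemann_lebesgue {q : T r → ℂ} (hq : Measurable q) {C : ℝ} (hC : ∀ t, ‖q t‖ ≤ C) :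
    Tendsto (co q) cofinite (𝓝 0) := by
  have h1 := (parseval hq hC).summable.tendsto_cofinite_zero
  have h2 : Tendsto (fun κ => ‖co q κ‖) cofinite (𝓝 0) := by
    have h3 := h1.sqrt
    rw [Real.sqrt_zero] at h3
    refine h3.congr fun κ => ?_
    exact Real.sqrt_sq (norm_nonneg _)
  exact tendsto_zero_iff_norm_tendsto_zero.2 h2

theorem isInt_zero : IsInt 0 := ⟨0, by simp⟩

theorem int_neg {z : ℂ} (h : IsInt z) : IsInt (-z) := by
  obtain ⟨k, rfl⟩ := h
  exact ⟨-k, by push_cast; rfl⟩

theorem int_add {z w : ℂ} (h : IsInt z) (h' : IsInt w) : IsInt (z + w) := by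
  obtain ⟨k, rfl⟩ := h
  obtain ⟨l, rfl⟩ := h'
  exact ⟨k + l, by push_cast; rfl⟩

theorem isInt_closed : IsClosed {z : ℂ | IsInt z} := by
  have : {z : ℂ | IsInt z} = Set.range (Complex.ofReal ∘ ((↑) : ℤ → ℝ)) := by
    ext z
    refine ⟨fun ⟨k, hk⟩ => ⟨k, ?_⟩, fun ⟨k, hk⟩ => ⟨k, ?_⟩⟩
    · rw [hk]
      simp
    · rw [← hk]
      simp
  rw [this]
  exact (Complex.isometry_ofReal.isClosedEmbedding.comp Int.isClosedEmbedding_coe_real).isClosed_range

/-- division by one factor -/
theorem div_one {q : T r → ℂ} (hq : Measurable q) {C : ℝ} (hC : ∀ t, ‖q t‖ ≤ C)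
    {α : Fin r → ℤ} (hα : α ≠ 0) (h : ∀ κ, IsInt (co (fun t => (1 - e α t) * q t) κ)) :
    ∀ κ, IsInt (co q κ) := by
  have hi : ∀ κ, Integrable (fun t => e κ t * q t) (hT r) := fun κ =>
    integrable_of_bd ((e κ).continuous.measurable.mul hq) (C := C) fun t => by
      rw [norm_mul, norm_e, one_mul]
      exact hC t
  have h1 : ∀ κ, co (fun t => (1 - e α t) * q t) κ = co q κ - co q (κ + α) := by
    intro κ
    unfold co
    rw [← integral_sub (hi κ) (hi (κ + α))]
    refine integral_congr_ae (Eventually.of_forall fun t => ?_)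
    simp only
    rw [e_add']
    ring
  have h2 : ∀ (n : ℕ) κ, IsInt (co q κ - co q (κ + n • α)) := by
    intro n
    induction n with
    | zero =>
      intro κ
      simp only [zero_smul, add_zero, sub_self]
      exact isInt_zero
    | succ n ih =>
      intro κ
      have h3 := ih κ
      have h4 := h (κ + n • α)
      rw [h1] at h4
      have h5 := int_add h3 h4
      refine (congrArg IsInt ?_).mp h5
      rw [succ_nsmul, ← add_assoc]
      ring
  intro κ
  have h3 : Tendsto (fun n : ℕ => κ + n • α) atTop cofinite := by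
    rw [← Nat.cofinite_eq_atTop]
    refine Function.Injective.tendsto_cofinite fun a b hab => ?_
    simp only [add_right_inj] at hab
    by_contra hne
    obtain ⟨i, hi⟩ := Function.ne_iff.1 hα
    have h4 := congrFun hab i
    simp only [Pi.smul_apply, nsmul_eq_mul, Pi.zero_apply] at h4 hi
    have h5 := mul_right_cancel₀ hi h4
    exact hne (by exact_mod_cast h5)
  have h4 : Tendsto (fun n : ℕ => co q κ - co q (κ + n • α)) atTop (𝓝 (co q κ - 0)) :=
    tendsto_const_nhds.sub ((riemann_lebesgue hq hC).comp h3)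
  rw [sub_zero] at h4
  exact isInt_closed.mem_of_tendsto h4 (Eventually.of_forall fun n => h2 n κ)

/-- division by a product -/
theorem div_prod {m : ℕ} {α : Fin m → Fin r → ℤ} (hα : ∀ j, α j ≠ 0) (S : Finset (Fin m))
    {q : T r → ℂ} (hq : Measurable q) {C : ℝ} (hC : ∀ t, ‖q t‖ ≤ C)
    (h : ∀ κ, IsInt (co (fun t => (∏ j ∈ S, (1 - e (α j) t)) * q t) κ)) :
    ∀ κ, IsInt (co q κ) := by
  induction S using Finset.induction_on generalizing q C with
  | empty =>
    intro κ
    have := h κ
    simpa using this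
  | insert i S hi ih =>
    refine div_one hq hC (hα i) ?_
    refine ih (q := fun t => (1 - e (α i) t) * q t) (C := 2 * C)
      ((measurable_const.sub (e (α i)).continuous.measurable).mul hq) (fun t => ?_) fun κ => ?_
    · rw [norm_mul]
      have h1 : ‖1 - e (α i) t‖ ≤ 2 := by
        refine (norm_sub_le _ _).trans ?_
        rw [norm_one, norm_e]
        norm_num
      have h2 : 0 ≤ C := (norm_nonneg _).trans (hC t)
      exact mul_le_mul h1 (hC t) (norm_nonneg _) (by norm_num)
    · have h1 := h κ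
      refine (congrArg IsInt ?_).mp h1
      congr 1
      funext t
      rw [Finset.prod_insert hi]
      ring

/-- a bounded function by one with integral coefficients -/
theorem int_cases {q : T r → ℂ} (hq : Measurable q) (h1 : ∀ t, ‖q t‖ ≤ 1)
    (h : ∀ κ, IsInt (co q κ)) :
    (q =ᵐ[hT r] 0) ∨ ∃ (κ : Fin r → ℤ) (s : ℂ), (s = 1 ∨ s = -1) ∧ q =ᵐ[hT r] fun t => s * e κ t := by
  have hp := parseval hq h1
  have hle : ∫ t, ‖q t‖ ^ 2 ∂(hT r) ≤ 1 := by
    have h2 : ∫ t, ‖q t‖ ^ 2 ∂(hT r) ≤ ∫ _, (1 : ℝ) ∂(hT r) := by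
      refine integral_mono_of_nonneg (Eventually.of_forall fun t => by positivity)
        (integrable_const _) (Eventually.of_forall fun t => ?_)
      simp only
      exact pow_le_one₀ (norm_nonneg _) (h1 t)
    simpa using h2
  by_cases h0 : ∀ κ, co q κ = 0
  · left
    have h2 : HasSum (fun κ => ‖co q κ‖ ^ 2) 0 := by
      simp only [h0, norm_zero]
      norm_num
    have h3 := hp.unique h2
    have h4 : Integrable (fun t => ‖q t‖ ^ 2) (hT r) := by
      refine Integrable.of_bound (hq.norm.pow_const 2).aestronglyMeasurable 1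
        (Eventually.of_forall fun t => ?_)
      rw [Real.norm_of_nonneg (by positivity)]
      exact pow_le_one₀ (norm_nonneg _) (h1 t)
    have h5 := (integral_eq_zero_iff_of_nonneg (fun t => by positivity) h4).1 h3
    refine h5.mono fun t ht => ?_
    simp only [Pi.zero_apply] at ht ⊢
    exact norm_eq_zero.1 (pow_eq_zero_iff two_ne_zero |>.1 ht)
  · right
    push Not at h0
    obtain ⟨κ, hκ⟩ := h0
    obtain ⟨k, hk⟩ := h κ
    have hk0 : k ≠ 0 := by
      rintro rfl
      apply hκ
      rw [hk]
      simp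
    have h2 : ‖co q κ‖ ^ 2 ≤ 1 :=
      (le_hasSum hp κ fun j _ => by positivity).trans hle
    have h3 : ‖co q κ‖ ^ 2 = (k : ℝ) ^ 2 := by
      rw [hk, Complex.norm_intCast, sq_abs]
    rw [h3] at h2
    have h4 : k ^ 2 ≤ 1 := by exact_mod_cast h2
    have h5 : k = 1 ∨ k = -1 := by
      have h6 : -1 ≤ k := by nlinarith
      have h7 : k ≤ 1 := by nlinarith
      omega
    have h6 : (k : ℂ) = 1 ∨ (k : ℂ) = -1 := by
      rcases h5 with rfl | rfl
      · left; simp
      · right; simp
    refine ⟨-κ, k, h6, ?_⟩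
    have hk2 : (k : ℝ) ^ 2 = 1 := by
      rcases h5 with rfl | rfl <;> norm_num
    -- the distance
    have h7 : ∫ t, ‖q t - k * e (-κ) t‖ ^ 2 ∂(hT r) ≤ 0 := by
      have e1 : ∀ t, ‖q t - k * e (-κ) t‖ ^ 2 = ‖q t‖ ^ 2 - 2 * (k * (e κ t * q t)).re + 1 := by
        intro t
        have h8 : ‖(k : ℂ) * e (-κ) t‖ ^ 2 = 1 := by
          rw [norm_mul, norm_e, mul_one, Complex.norm_intCast, sq_abs]
          exact hk2
        rw [← Complex.normSq_eq_norm_sq, Complex.normSq_sub, Complex.normSq_eq_norm_sq,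
          Complex.normSq_eq_norm_sq, h8, e_neg, map_mul, Complex.conj_conj, map_intCast]
        rw [show q t * (↑k * e κ t) = ↑k * (e κ t * q t) by ring]
        ring
      have i1 : Integrable (fun t => ‖q t‖ ^ 2) (hT r) := by
        refine Integrable.of_bound (hq.norm.pow_const 2).aestronglyMeasurable 1
          (Eventually.of_forall fun t => ?_)
        rw [Real.norm_of_nonneg (by positivity)]
        exact pow_le_one₀ (norm_nonneg _) (h1 t)
      have i2 : Integrable (fun t => (k : ℂ) * (e κ t * q t)) (hT r) := by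
        refine integrable_of_bd (measurable_const.mul ((e κ).continuous.measurable.mul hq))
          (C := ‖(k : ℂ)‖) fun t => ?_
        rw [norm_mul, norm_mul, norm_e, one_mul]
        exact mul_le_of_le_one_right (norm_nonneg _) (h1 t)
      have i3 : Integrable (fun t => 2 * ((k : ℂ) * (e κ t * q t)).re) (hT r) :=
        i2.re.const_mul 2
      simp only [e1]
      rw [integral_add (f := fun t => ‖q t‖ ^ 2 - 2 * ((k : ℂ) * (e κ t * q t)).re)
        (i1.sub i3) (integrable_const _), integral_sub i1 i3, integral_const_mul]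
      have h9 : ∫ t, ((k : ℂ) * (e κ t * q t)).re ∂(hT r) = 1 := by
        have h10 := integral_re i2
        have h11 : ∫ t, (k : ℂ) * (e κ t * q t) ∂(hT r) = 1 := by
          rw [integral_const_mul]
          change (k : ℂ) * co q κ = 1
          rw [hk]
          rw [← pow_two]
          exact_mod_cast hk2
        rw [h11] at h10
        exact h10
      rw [h9]
      simp
      linarith
    have h8 : Integrable (fun t => ‖q t - k * e (-κ) t‖ ^ 2) (hT r) := by
      refine Integrable.of_bound ((hq.sub (measurable_const.mul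
        (e (-κ)).continuous.measurable)).norm.pow_const 2).aestronglyMeasurable 4
        (Eventually.of_forall fun t => ?_)
      rw [Real.norm_of_nonneg (by positivity)]
      have h9 : ‖q t - k * e (-κ) t‖ ≤ 2 := by
        refine (norm_sub_le _ _).trans ?_
        rw [norm_mul, norm_e, mul_one, Complex.norm_intCast]
        have h10 : |(k : ℝ)| = 1 := by
          rw [← sq_eq_sq₀ (abs_nonneg _) zero_le_one, sq_abs, hk2, one_pow]
        have := h1 t
        linarith
      nlinarith [norm_nonneg (q t - k * e (-κ) t)]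
    have h9 := (integral_eq_zero_iff_of_nonneg (fun t => by positivity) h8).1
      (le_antisymm h7 (integral_nonneg fun t => by positivity))
    refine h9.mono fun t ht => ?_
    simp only [Pi.zero_apply] at ht
    exact sub_eq_zero.1 (norm_eq_zero.1 (pow_eq_zero_iff two_ne_zero |>.1 ht))

end Pool.Agent.T2H24.FC
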