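import Pool.Agent.T2H24.FC.Act
import Pool.Agent.T2H24.FC.Kern

set_option autoImplicit false
set_option linter.unusedSectionVars false
set_option linter.unusedVariables false

/-!
# Compact groups with a maximal torus and Weyl's integration formula
-/

namespace Pool.Agent.T2H24.FC

open Filter Topology ComplexConjugate MeasureTheory
  Pool.Agent.TH553.RS Pool.Agent.TH553.ST Pool.Agent.H341R2 Pool.Agent.T2H24.SU
  Pool.Agent.T2H24.GR
open scoped ComplexOrder

variable {G : Type} [Group G] [TopologicalSpace G] [MeasurableSpace G]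

/-- a maximal torus -/
structure WT (μ : Measure G) (r m N : ℕ) where
  ι : T r → G
  add : ∀ s t, ι (s + t) = ι s * ι t
  cont : Continuous ι
  surj : ∀ g, ∃ h t, g = h * ι t * h⁻¹
  w : Fin N → (Fin r → ℤ) ≃+ (Fin r → ℤ)
  pos : 0 < N
  inv : ∀ i t s, (∀ κ, e κ s = e (w i κ) t) → ∃ h, ι s = h * ι t * h⁻¹
  α : Fin m → Fin r → ℤ
  ne : ∀ j, α j ≠ 0
  perm : ∀ i, ∃ σ : Equiv.Perm (Fin m), ∀ j, w i (α j) = α (σ j)
  nn : ∀ t, 0 ≤ ∏ j, (1 - e (α j) t)
  weyl : ∀ f : G → ℂ, Continuous f → (∀ g h, f (h * g * h⁻¹) = f g) →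
    (N : ℂ) * ∫ g, f g ∂μ = ∫ t, f (ι t) * ∏ j, (1 - e (α j) t) ∂(hT r)
  char : ∀ κ, ∃ (J : Type) (_ : Fintype J) (π : J → Irr G) (a : J → ℤ),
    ∀ t, ∑ i, e (w i κ) t = ∑ j, a j * (π j).c (ι t)

section

variable {μ : Measure G} [IsProbabilityMeasure μ] {r m N : ℕ} (𝒲 : WT μ r m N)

theorem prod_cont : Continuous fun t : T r => ∏ j, (1 - e (𝒲.α j) t) :=
  continuous_finsetProd _ fun j _ => continuous_const.sub (e (𝒲.α j)).continuous

/-- the density -/
noncomputable def WT.dn : Dn r m N where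
  α := 𝒲.α
  ne := 𝒲.ne
  pos := 𝒲.pos
  D t := (∏ j, (1 - e (𝒲.α j) t)).re / N
  cont := (Complex.continuous_re.comp (prod_cont 𝒲)).div_const _
  nn t := div_nonneg (Complex.nonneg_iff.1 (𝒲.nn t)).1 (Nat.cast_nonneg _)
  eq t := by
    have h1 := Complex.nonneg_iff.1 (𝒲.nn t)
    have hN : (N : ℂ) ≠ 0 := by exact_mod_cast 𝒲.pos.ne'
    push_cast
    rw [mul_div_cancel₀ _ hN]
    apply Complex.ext
    · rw [Complex.ofReal_re]
    · rw [Complex.ofReal_im]
      exact h1.2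
  one := by
    have hN : (N : ℝ) ≠ 0 := by exact_mod_cast 𝒲.pos.ne'
    have h1 := 𝒲.weyl (fun _ => 1) continuous_const fun _ _ => rfl
    simp only [integral_const, probReal_univ, one_smul, mul_one, one_mul] at h1
    rw [integral_div, div_eq_one_iff_eq hN]
    have h2 := integral_re (cont_int (prod_cont 𝒲))
    rw [← h1] at h2
    simp only [RCLike.re_eq_complex_re] at h2
    rw [h2]
    exact Complex.natCast_re _

theorem dn_eq (t : T r) : (N : ℂ) * (𝒲.dn.D t : ℂ) = ∏ j, (1 - e (𝒲.α j) t) := 𝒲.dn.eq t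

/-- the coefficients are invariant -/
theorem dn_inv (i : Fin N) (κ : Fin r → ℤ) : 𝒲.dn.c (𝒲.w i κ) = 𝒲.dn.c κ := by
  obtain ⟨σ, hσ⟩ := 𝒲.perm i
  have hN : (N : ℂ) ≠ 0 := by exact_mod_cast 𝒲.pos.ne'
  have h1 : ∀ κ, (N : ℂ) * 𝒲.dn.c κ = ∫ t, e κ t * ∏ j, (1 - e (𝒲.α j) t) ∂(hT r) := by
    intro κ
    unfold Dn.c
    rw [← integral_const_mul]
    refine integral_congr_ae (Eventually.of_forall fun t => ?_)
    simp only
    rw [← dn_eq]
    ring
  have h2 := ct_inv (w := 𝒲.w i) hσ κ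
  rw [← h1, ← h1] at h2
  exact mul_left_cancel₀ hN h2

/-- the sum over the orbit -/
noncomputable def WT.F (κ : Fin r → ℤ) (t : T r) : ℂ := ∑ i, e (𝒲.w i κ) t

/-- Weyl's integration formula -/
theorem weyl' {f : G → ℂ} (hf : Continuous f) (hcl : ∀ g h, f (h * g * h⁻¹) = f g) :
    ∫ g, f g ∂μ = ∫ t, f (𝒲.ι t) * (𝒲.dn.D t : ℂ) ∂(hT r) := by
  have hN : (N : ℂ) ≠ 0 := by exact_mod_cast 𝒲.pos.ne'
  refine mul_left_cancel₀ hN ?_
  rw [𝒲.weyl f hf hcl, ← integral_const_mul]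
  refine integral_congr_ae (Eventually.of_forall fun t => ?_)
  simp only
  rw [← dn_eq]
  ring

/-- representatives in the torus -/
theorem inv_act (i : Fin N) (t : T r) :
    ∃ h, 𝒲.ι (act (𝒲.w i : (Fin r → ℤ) →+ (Fin r → ℤ)) t) = h * 𝒲.ι t * h⁻¹ :=
  𝒲.inv i t _ fun κ => e_act _ κ t

theorem neg_ι (t : T r) : 𝒲.ι (-t) = (𝒲.ι t)⁻¹ := by
  have h0 : 𝒲.ι 0 = 1 := by
    have := 𝒲.add 0 0
    rw [add_zero] at this
    exact (mul_eq_left.1 this.symm)
  have h1 := 𝒲.add (-t) t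
  rw [neg_add_cancel, h0] at h1
  exact eq_inv_of_mul_eq_one_left h1.symm

theorem c_inv (π : Irr G) (g : G) : π.c g⁻¹ = conj (π.c g) := chi_inv π.ρ g

theorem c_cls (π : Irr G) (g h : G) : π.c (h * g * h⁻¹) = π.c g := chi_cls _ _ _

theorem e_neg_arg (κ : Fin r → ℤ) (t : T r) : e κ (-t) = conj (e κ t) := by
  rw [← e_neg, e_toCircle, e_toCircle]
  congr 2
  refine Finset.sum_congr rfl fun i _ => ?_
  simp

end

section

variable {μ : Measure G} [IsProbabilityMeasure μ] {r m N : ℕ} (𝒲 : WT μ r m N)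
  {P : Type} {N' : P → ℕ} {U : Ultrafilter ℝ}

theorem bc_f (f : C(T r, ℂ)) (t : P → T r) : Bc fun p => f (t p) :=
  ⟨‖f‖, fun p => f.norm_coe_le_norm _⟩

/-- the symmetrised value -/
noncomputable def sy (f : C(T r, ℂ)) (t : T r) : ℂ :=
  ((1 / (2 * N) : ℝ) : ℂ) * ∑ i, (f (act (𝒲.w i : (Fin r → ℤ) →+ (Fin r → ℤ)) t) +
    f (-(act (𝒲.w i : (Fin r → ℤ) →+ (Fin r → ℤ)) t)))

theorem Bc.sum {ι : Type*} (s : Finset ι) {f : ι → P → ℂ} (h : ∀ i ∈ s, Bc (f i)) :
    Bc fun p => ∑ i ∈ s, f i p := by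
  classical
  induction s using Finset.induction_on with
  | empty =>
    simp only [Finset.sum_empty]
    exact Bc.const 0
  | insert i s hi ih =>
    simp only [Finset.sum_insert hi]
    exact (h i (Finset.mem_insert_self _ _)).add (ih fun j hj => h j (Finset.mem_insert_of_mem hj))

theorem bc_sy (f : C(T r, ℂ)) (t : P → T r) : Bc fun p => sy 𝒲 f (t p) := by
  unfold sy
  have h1 : Bc fun p => ∑ i, (f (act (𝒲.w i : (Fin r → ℤ) →+ (Fin r → ℤ)) (t p)) +
      f (-(act (𝒲.w i : (Fin r → ℤ) →+ (Fin r → ℤ)) (t p)))) :=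
    Bc.sum Finset.univ fun i _ => (bc_f f _).add (bc_f f _)
  exact (Bc.const _).mul h1

/-- the state -/
noncomputable def st (hN : Sys N') (hU : (U : Filter ℝ) ≤ 𝓝[>] 0) (t : P → T r) :
    C(T r, ℂ) →ₗ[ℂ] ℂ where
  toFun f := Mc N' U fun p => sy 𝒲 f (t p)
  map_add' f g := by
    rw [← Mc_add hN hU (bc_sy 𝒲 f t) (bc_sy 𝒲 g t)]
    congr 1
    funext p
    unfold sy
    rw [← mul_add, ← Finset.sum_add_distrib]
    congr 1
    refine Finset.sum_congr rfl fun i _ => ?_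
    simp only [ContinuousMap.add_apply]
    ring
  map_smul' c f := by
    simp only [RingHom.id_apply, smul_eq_mul]
    rw [← Mc_mul hN hU (bc_sy 𝒲 f t)]
    congr 1
    funext p
    unfold sy
    rw [mul_left_comm c]
    congr 1
    rw [Finset.mul_sum]
    refine Finset.sum_congr rfl fun i _ => ?_
    simp only [ContinuousMap.smul_apply, smul_eq_mul]
    ring

theorem st_apply (hN : Sys N') (hU : (U : Filter ℝ) ≤ 𝓝[>] 0) (t : P → T r) (f : C(T r, ℂ)) :
    st 𝒲 hN hU t f = Mc N' U fun p => sy 𝒲 f (t p) := rfl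

theorem sy_e (κ : Fin r → ℤ) (t : T r) :
    (N : ℂ) * sy 𝒲 (e κ) t = (((𝒲.F κ t).re : ℝ) : ℂ) := by
  have hN : (N : ℂ) ≠ 0 := by exact_mod_cast 𝒲.pos.ne'
  unfold sy WT.F
  have h1 : ∀ i, e κ (act (𝒲.w i : (Fin r → ℤ) →+ (Fin r → ℤ)) t) +
      e κ (-(act (𝒲.w i : (Fin r → ℤ) →+ (Fin r → ℤ)) t)) =
      ((2 * (e (𝒲.w i κ) t).re : ℝ) : ℂ) := by
    intro i
    rw [e_neg_arg, e_act, Complex.add_conj]
    push_cast
    rfl
  simp only [h1]
  rw [Complex.re_sum]
  push_cast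
  rw [← Finset.mul_sum]
  field_simp

/-- the absolute value of a mean -/
theorem norm_Mc_le (hN : Sys N') (hU : (U : Filter ℝ) ≤ 𝓝[>] 0) {φ : P → ℂ} (h : Bc φ) :
    ‖Mc N' U φ‖ ≤ M N' U fun p => ‖φ p‖ := by
  set z := Mc N' U φ with hz
  by_cases h0 : z = 0
  · rw [h0, norm_zero]
    exact M_nonneg hN hU h.norm fun p => norm_nonneg _
  · have h1 : Mc N' U (fun p => (conj z / ‖z‖) * φ p) = (conj z / ‖z‖) * z := by
      rw [Mc_mul hN hU h]
    have hz0 : (‖z‖ : ℂ) ≠ 0 := by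
      have := norm_pos_iff.2 h0
      exact_mod_cast this.ne'
    have h2 : (conj z / ‖z‖) * z = ‖z‖ := by
      rw [div_mul_eq_mul_div, Complex.conj_mul', sq, mul_div_assoc, div_self hz0, mul_one]
    rw [h2] at h1
    have h3 := congrArg Complex.re h1
    rw [Complex.ofReal_re] at h3
    rw [← h3]
    change (M N' U fun p => ((conj z / ‖z‖) * φ p).re) ≤ _
    refine M_mono hN hU ((Bc.const _).mul h).re h.norm fun p => ?_
    refine (Complex.re_le_norm _).trans ?_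
    rw [norm_mul, norm_div, Complex.norm_conj, Complex.norm_real, norm_norm, div_self
      (norm_pos_iff.2 h0).ne', one_mul]

/-- the state is integral -/
theorem st_state (hN : Sys N') (hU : (U : Filter ℝ) ≤ 𝓝[>] 0) (t : P → T r)
    (h : ∀ κ, ∃ k : ℤ, (M N' U fun p => (𝒲.F κ (t p)).re) = k) : IState N (st 𝒲 hN hU t) where
  one := by
    rw [st_apply]
    have h1 : (fun p => sy 𝒲 1 (t p)) = fun _ => (1 : ℂ) := by
      funext p
      have h2 := sy_e 𝒲 0 (t p)
      rw [e_zero] at h2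
      have h3 : 𝒲.F 0 (t p) = N := by
        unfold WT.F
        simp only [map_zero]
        rw [e_zero]
        simp
      rw [h3, Complex.natCast_re] at h2
      have hN0 : (N : ℂ) ≠ 0 := by exact_mod_cast 𝒲.pos.ne'
      refine mul_left_cancel₀ hN0 ?_
      rw [h2, mul_one]
      simp
    rw [h1]
    apply Complex.ext
    · change (M N' U fun _ => (1 : ℂ).re) = 1
      exact M_one hN hU
    · change (M N' U fun _ => (1 : ℂ).im) = 0
      simp only [Complex.one_im]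
      exact M_const hN hU 0
  bound f := by
    rw [st_apply, st_apply]
    refine (norm_Mc_le hN hU (bc_sy 𝒲 f t)).trans ?_
    change _ ≤ M N' U fun p => (sy 𝒲 (absC f) (t p)).re
    refine M_mono hN hU (bc_sy 𝒲 f t).norm (bc_sy 𝒲 (absC f) t).re fun p => ?_
    unfold sy
    rw [norm_mul, Complex.norm_real, Complex.re_ofReal_mul, Real.norm_of_nonneg (by positivity)]
    refine mul_le_mul_of_nonneg_left ?_ (by positivity)
    rw [Complex.re_sum]
    refine (norm_sum_le _ _).trans (Finset.sum_le_sum fun i _ => ?_)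
    exact norm_add_le _ _
  int κ := by
    obtain ⟨k, hk⟩ := h κ
    refine ⟨k, ?_⟩
    rw [st_apply, ← Mc_mul hN hU (bc_sy 𝒲 (e κ) t)]
    simp only [sy_e]
    apply Complex.ext
    · change (M N' U fun p => (((𝒲.F κ (t p)).re : ℝ) : ℂ).re) = _
      simp only [Complex.ofReal_re, Complex.intCast_re]
      exact hk
    · change (M N' U fun p => (((𝒲.F κ (t p)).re : ℝ) : ℂ).im) = _
      simp only [Complex.ofReal_im, Complex.intCast_im]
      exact M_const hN hU 0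

end

end Pool.Agent.T2H24.FC
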